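import Pool.Agent.D0H99.RM.Stm

set_option autoImplicit false

/-! Project RM, module CL: the large isotropic sets in the cone. -/

namespace Pool.Agent.D0H52.RM

open Finset Pool.Agent.D0H99.RM

section

variable {ℓ m : ℕ} [hp : Fact ℓ.Prime]

/-- the polar form -/
noncomputable def pol (ℓ m : ℕ) : LinearMap.BilinForm (ZMod ℓ) (V ℓ m × V ℓ m) :=
  LinearMap.mk₂ (ZMod ℓ) (fun v w => ∑ s, (v.1 s * w.2 s + v.2 s * w.1 s))
    (by
      intro v v' w
      rw [← Finset.sum_add_distrib]
      refine Finset.sum_congr rfl fun s _ => ?_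
      simp only [Prod.fst_add, Prod.snd_add, Pi.add_apply]
      ring)
    (by
      intro c v w
      rw [smul_eq_mul, Finset.mul_sum]
      refine Finset.sum_congr rfl fun s _ => ?_
      simp only [Prod.smul_fst, Prod.smul_snd, Pi.smul_apply, smul_eq_mul]
      ring)
    (by
      intro v w w'
      rw [← Finset.sum_add_distrib]
      refine Finset.sum_congr rfl fun s _ => ?_
      simp only [Prod.fst_add, Prod.snd_add, Pi.add_apply]
      ring)
    (by
      intro c v w
      rw [smul_eq_mul, Finset.mul_sum]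
      refine Finset.sum_congr rfl fun s _ => ?_
      simp only [Prod.smul_fst, Prod.smul_snd, Pi.smul_apply, smul_eq_mul]
      ring)

theorem pol_apply (v w : V ℓ m × V ℓ m) :
    pol ℓ m v w = ∑ s, (v.1 s * w.2 s + v.2 s * w.1 s) := rfl

theorem pol_ker : (pol ℓ m).ker = ⊥ := by
  classical
  rw [LinearMap.ker_eq_bot']
  intro v hv
  have h1 : ∀ w, pol ℓ m v w = 0 := fun w => by rw [hv]; rfl
  refine Prod.ext ?_ ?_
  · funext s
    have h2 := h1 (0, Pi.single s 1)
    rw [pol_apply] at h2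
    simpa [Pi.single_apply] using h2
  · funext s
    have h2 := h1 (Pi.single s 1, 0)
    rw [pol_apply] at h2
    simpa [Pi.single_apply] using h2

theorem span_card (I : Finset (V ℓ m × V ℓ m)) (v0 : V ℓ m × V ℓ m) (h0 : v0 ∈ I)
    (hI : ∀ v ∈ I, ∀ w ∈ I, Iso v w) :
    ∃ W : Submodule (ZMod ℓ) (V ℓ m × V ℓ m), (∀ v ∈ I, v - v0 ∈ W) ∧ Nat.card W ≤ ℓ ^ m := by
  let S : Set (V ℓ m × V ℓ m) := (fun v => v - v0) '' (I : Set (V ℓ m × V ℓ m))
  let W := Submodule.span (ZMod ℓ) S
  refine ⟨W, fun v hv => Submodule.subset_span ⟨v, hv, rfl⟩, ?_⟩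
  have h1 : ∀ x ∈ S, ∀ y ∈ S, pol ℓ m x y = 0 := by
    rintro _ ⟨v, hv, rfl⟩ _ ⟨w, hw, rfl⟩
    have h2 := hI v hv v0 h0
    have h3 := hI w hw v0 h0
    have h4 := hI v hv w hw
    unfold Iso at h2 h3 h4
    rw [pol_apply]
    have h5 : ∑ s, ((v - v0).1 s * (w - v0).2 s + (v - v0).2 s * (w - v0).1 s) =
        ∑ s, (v.1 s - v0.1 s) * (v.2 s - v0.2 s) + ∑ s, (w.1 s - v0.1 s) * (w.2 s - v0.2 s) -
          ∑ s, (v.1 s - w.1 s) * (v.2 s - w.2 s) := by
      rw [← Finset.sum_add_distrib, ← Finset.sum_sub_distrib]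
      refine Finset.sum_congr rfl fun s _ => ?_
      simp only [Prod.fst_sub, Prod.snd_sub, Pi.sub_apply]
      ring
    rw [h5, h2, h3, h4]
    ring
  have h2 : W ≤ (pol ℓ m).orthogonal W := by
    intro x hx
    rw [LinearMap.BilinForm.mem_orthogonal_iff]
    intro y hy
    change pol ℓ m y x = 0
    refine Submodule.span_induction (p := fun y _ => pol ℓ m y x = 0) ?_ ?_ ?_ ?_ hy
    · intro y hy'
      refine Submodule.span_induction (p := fun x _ => pol ℓ m y x = 0) ?_ ?_ ?_ ?_ hx
      · intro x hx'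
        exact h1 y hy' x hx'
      · simp
      · intro a b _ _ ha hb
        rw [map_add, ha, hb, add_zero]
      · intro c a _ ha
        rw [map_smul, ha, smul_zero]
    · simp
    · intro a b _ _ ha hb
      rw [map_add, LinearMap.add_apply, ha, hb, add_zero]
    · intro c a _ ha
      rw [map_smul, LinearMap.smul_apply, ha, smul_zero]
  have h3 := LinearMap.BilinForm.finrank_add_finrank_orthogonal' (B := pol ℓ m) W
  rw [pol_ker, inf_bot_eq, finrank_bot, add_zero] at h3
  have h4 : Module.finrank (ZMod ℓ) (V ℓ m × V ℓ m) = m + m := by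
    rw [Module.finrank_prod, Module.finrank_fintype_fun_eq_card, Fintype.card_fin]
  have h5 := Submodule.finrank_mono h2
  rw [h4] at h3
  have h6 : Module.finrank (ZMod ℓ) W ≤ m := by omega
  rw [Module.natCard_eq_pow_finrank (K := ZMod ℓ), Nat.card_zmod]
  exact Nat.pow_le_pow_right hp.out.pos h6

/-- the coordinates `γ` -/
def gam (c : V ℓ m) (s : Fin m) : ZMod ℓ := c s + ∑ b, c b

theorem sum_gam (c : V ℓ m) : ∑ s, gam c s = ((m + 1 : ℕ) : ZMod ℓ) * ∑ b, c b := by
  unfold gam
  rw [Finset.sum_add_distrib, Finset.sum_const, Finset.card_univ, Fintype.card_fin, nsmul_eq_mul]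
  push_cast
  ring

theorem c_eq (hm : ¬ ℓ ∣ m + 1) (c : V ℓ m) (s : Fin m) :
    c s = gam c s - ((m + 1 : ℕ) : ZMod ℓ)⁻¹ * ∑ s, gam c s := by
  have h0 : ((m + 1 : ℕ) : ZMod ℓ) ≠ 0 := by
    rw [Ne, ZMod.natCast_eq_zero_iff]
    exact hm
  rw [sum_gam, ← mul_assoc, inv_mul_cancel₀ h0, one_mul]
  unfold gam
  ring

end

theorem cl : S_CL := by
  classical
  intro ℓ m hℓ hℓ2 hm I hZ hI
  have hp : Fact ℓ.Prime := ⟨hℓ⟩
  by_cases hcard : I.card < ℓ ^ m
  · exact Or.inl hcard
  right
  push Not at hcard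
  have hpos : 0 < I.card := lt_of_lt_of_le (pow_pos hℓ.pos m) hcard
  obtain ⟨v0, h0⟩ := Finset.card_pos.mp hpos
  obtain ⟨W, hW1, hW2⟩ := span_card I v0 h0 hI
  -- `I` is the whole coset
  have hcos : ∀ w ∈ W, v0 + w ∈ I := by
    have h1 : Function.Injective (fun v : I => (⟨v.1 - v0, hW1 v.1 v.2⟩ : W)) := by
      intro v w h
      have h2 := congrArg Subtype.val h
      simp only at h2
      exact Subtype.ext (sub_left_inj.mp h2)
    have h2 : Nat.card I = Nat.card W := by
      apply le_antisymm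
      · exact Nat.card_le_card_of_injective _ h1
      · rw [Nat.card_eq_fintype_card (α := I), Fintype.card_coe]
        exact hW2.trans hcard
    have h3 := (Nat.bijective_iff_injective_and_card _).mpr ⟨h1, h2⟩
    intro w hw
    obtain ⟨v, hv⟩ := h3.2 ⟨w, hw⟩
    have h4 := congrArg Subtype.val hv
    simp only at h4
    rw [← h4, add_sub_cancel]
    exact v.2
  have hline : ∀ v ∈ I, ∀ w ∈ I, ∀ τ : ZMod ℓ, v + τ • (w - v) ∈ I := by
    intro v hv w hw τ
    have h1 : v + τ • (w - v) = v0 + ((v - v0) + τ • ((w - v0) - (v - v0))) := by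
      rw [sub_sub_sub_cancel_right]
      abel
    rw [h1]
    exact hcos _ (W.add_mem (hW1 v hv) (W.smul_mem τ (W.sub_mem (hW1 w hw) (hW1 v hv))))
  have htwo : (2 : ZMod ℓ) ≠ 0 := by
    have h1 : ((2 : ℕ) : ZMod ℓ) ≠ 0 := by
      rw [Ne, ZMod.natCast_eq_zero_iff]
      intro h
      exact hℓ2 ((Nat.prime_dvd_prime_iff_eq hℓ Nat.prime_two).mp h)
    exact_mod_cast h1
  have hZ' : ∀ v ∈ I, ∀ s, v.1 s * gam v.2 s = 0 := hZ
  have hs : ∀ s, (∀ v ∈ I, v.1 s = 0) ∨ (∀ v ∈ I, gam v.2 s = 0) := by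
    intro s
    by_contra hcon
    push Not at hcon
    obtain ⟨⟨v, hv, hv1⟩, ⟨w, hw, hw1⟩⟩ := hcon
    have h1 : gam v.2 s = 0 := by
      rcases mul_eq_zero.mp (hZ' v hv s) with h | h
      · exact absurd h hv1
      · exact h
    have h2 : w.1 s = 0 := by
      rcases mul_eq_zero.mp (hZ' w hw s) with h | h
      · exact h
      · exact absurd h hw1
    have h3 := hZ' _ (hline v hv w hw 2) s
    have h4 : (v + (2 : ZMod ℓ) • (w - v)).1 s = -v.1 s := by
      simp only [Prod.fst_add, Prod.smul_fst, Prod.fst_sub, Pi.add_apply, Pi.smul_apply,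
        Pi.sub_apply, smul_eq_mul, h2]
      ring
    have h5 : gam (v + (2 : ZMod ℓ) • (w - v)).2 s = 2 * gam w.2 s - gam v.2 s := by
      unfold gam
      simp only [Prod.snd_add, Prod.smul_snd, Prod.snd_sub, Pi.add_apply, Pi.smul_apply,
        Pi.sub_apply, smul_eq_mul, Finset.sum_add_distrib, ← Finset.mul_sum,
        Finset.sum_sub_distrib]
      ring
    rw [h4, h5, h1, sub_zero] at h3
    rcases mul_eq_zero.mp h3 with h | h
    · exact hv1 (neg_eq_zero.mp h)
    · rcases mul_eq_zero.mp h with h' | h'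
      · exact htwo h'
      · exact hw1 h'
  -- the coordinates
  let T : Fin m → Prop := fun s => ∀ v ∈ I, v.1 s = 0
  have hT' : ∀ s, ¬ T s → ∀ v ∈ I, gam v.2 s = 0 := fun s h => (hs s).resolve_left h
  let Φ : I → V ℓ m := fun v s => if T s then gam v.1.2 s else v.1.1 s
  have hgam_inj : ∀ v w : V ℓ m, (∀ s, gam v s = gam w s) → v = w := by
    intro v w h
    funext s
    rw [c_eq hm v s, c_eq hm w s, h s, Finset.sum_congr rfl fun s _ => h s]
  have hΦ : Function.Injective Φ := by
    intro v w h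
    apply Subtype.ext
    have h1 : ∀ s, Φ v s = Φ w s := fun s => congrFun h s
    refine Prod.ext ?_ ?_
    · funext s
      by_cases hT : T s
      · rw [hT v.1 v.2, hT w.1 w.2]
      · have h2 := h1 s
        change (if T s then _ else _) = (if T s then _ else _) at h2
        rw [if_neg hT, if_neg hT] at h2
        exact h2
    · apply hgam_inj
      intro s
      by_cases hT : T s
      · have h2 := h1 s
        change (if T s then _ else _) = (if T s then _ else _) at h2
        rw [if_pos hT, if_pos hT] at h2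
        exact h2
      · rw [hT' s hT v.1 v.2, hT' s hT w.1 w.2]
  have hΦs : Function.Surjective Φ := by
    have h2 : Nat.card I = Nat.card (V ℓ m) := by
      apply le_antisymm
      · exact Nat.card_le_card_of_injective _ hΦ
      · rw [Nat.card_eq_fintype_card (α := I), Fintype.card_coe, Nat.card_eq_fintype_card,
          Fintype.card_fun, ZMod.card, Fintype.card_fin]
        exact hcard
    exact ((Nat.bijective_iff_injective_and_card _).mpr ⟨hΦ, h2⟩).2
  by_cases hall : ∀ s, T s
  · left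
    intro v hv
    funext s
    exact hall s v hv
  by_cases hnone : ∀ s, ¬ T s
  · right
    intro v hv
    apply hgam_inj
    intro s
    rw [hT' s (hnone s) v hv]
    simp [gam]
  exfalso
  push Not at hall hnone
  obtain ⟨l', hl'⟩ := hall
  obtain ⟨l, hl⟩ := hnone
  have hne : l' ≠ l := fun h => hl' (h ▸ hl)
  obtain ⟨v, hv⟩ := hΦs (Pi.single l 1)
  obtain ⟨w, hw⟩ := hΦs (Pi.single l' 1)
  have hv1 : ∀ s, Φ v s = (Pi.single l 1 : V ℓ m) s := fun s => congrFun hv s
  have hw1 : ∀ s, Φ w s = (Pi.single l' 1 : V ℓ m) s := fun s => congrFun hw s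
  -- the first point
  have hva : ∀ s, v.1.1 s = 0 := by
    intro s
    by_cases hT : T s
    · exact hT v.1 v.2
    · have h2 := hv1 s
      change (if T s then _ else _) = _ at h2
      rw [if_neg hT, Pi.single_apply, if_neg] at h2
      · exact h2
      · rintro rfl
        exact hT hl
  have hvg : ∀ s, gam v.1.2 s = if s = l then 1 else 0 := by
    intro s
    by_cases hT : T s
    · have h2 := hv1 s
      change (if T s then _ else _) = _ at h2
      rw [if_pos hT, Pi.single_apply] at h2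
      exact h2
    · rw [hT' s hT v.1 v.2, if_neg]
      rintro rfl
      exact hT hl
  have hwa : ∀ s, w.1.1 s = if s = l' then 1 else 0 := by
    intro s
    by_cases hT : T s
    · rw [hT w.1 w.2, if_neg]
      rintro rfl
      exact hl' hT
    · have h2 := hw1 s
      change (if T s then _ else _) = _ at h2
      rw [if_neg hT, Pi.single_apply] at h2
      exact h2
  have hwc : w.1.2 = 0 := by
    apply hgam_inj
    intro s
    have h3 : gam (0 : V ℓ m) s = 0 := by simp [gam]
    rw [h3]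
    by_cases hT : T s
    · have h2 := hw1 s
      change (if T s then _ else _) = _ at h2
      rw [if_pos hT, Pi.single_apply, if_neg] at h2
      · exact h2
      · rintro rfl
        exact hl' hT
    · exact hT' s hT w.1 w.2
  have h1 := hI v.1 v.2 w.1 w.2
  unfold Iso at h1
  have h2 : ∑ s, (v.1.1 s - w.1.1 s) * (v.1.2 s - w.1.2 s) = - v.1.2 l' := by
    rw [Finset.sum_eq_single l']
    · rw [hva, hwa, if_pos rfl, hwc]
      simp
    · intro s _ hsl
      rw [hva, hwa, if_neg hsl]
      simp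
    · intro h
      exact absurd (Finset.mem_univ _) h
  rw [h2, c_eq hm v.1.2 l', hvg, if_neg hne] at h1
  have h3 : ∑ s, gam v.1.2 s = 1 := by
    simp only [hvg]
    simp
  rw [h3, mul_one, zero_sub, neg_neg] at h1
  have h4 : ((m + 1 : ℕ) : ZMod ℓ) ≠ 0 := by
    rw [Ne, ZMod.natCast_eq_zero_iff]
    exact hm
  exact inv_ne_zero h4 h1

end Pool.Agent.D0H52.RM
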