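import Pool.Agent.D0H99.RM.Stm2
import Pool.Agent.D0H52.RM.Cl

set_option autoImplicit false

/-! Project RM, module CL2: the large isotropic sets in the cone over the field with two elements. -/

namespace Pool.Agent.D0H52.RM

open Finset Pool.Agent.D0H99.RM

section

variable {m : ℕ}

theorem gam_sub (c c' : V 2 m) (s : Fin m) : gam (c - c') s = gam c s - gam c' s := by
  unfold gam
  simp only [Pi.sub_apply, Finset.sum_sub_distrib]
  ring

theorem c_eq2 (hm : Even m) (c : V 2 m) (s : Fin m) : c s = gam c s + ∑ b, gam c b := by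
  have h0 : ((m + 1 : ℕ) : ZMod 2) = 1 := by
    obtain ⟨k, rfl⟩ := hm
    push_cast
    have h2 : (2 : ZMod 2) = 0 := rfl
    have : (k : ZMod 2) + k + 1 = 2 * k + 1 := by ring
    rw [this, h2, zero_mul, zero_add]
  rw [sum_gam, h0, one_mul]
  unfold gam
  rw [add_assoc, CharTwo.add_self_eq_zero, add_zero]

theorem pol_gam (hm : Even m) (x y : V 2 m × V 2 m) :
    pol 2 m x y = ∑ s, (x.1 s * gam y.2 s + gam x.2 s * y.1 s) +
      ((∑ s, x.1 s) * (∑ s, gam y.2 s) + (∑ s, gam x.2 s) * ∑ s, y.1 s) := by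
  rw [pol_apply, Finset.sum_mul, Finset.mul_sum, ← Finset.sum_add_distrib,
    ← Finset.sum_add_distrib]
  refine Finset.sum_congr rfl fun s _ => ?_
  conv_lhs => rw [c_eq2 hm y.2 s, c_eq2 hm x.2 s]
  ring

end

theorem two_dim : ∀ a b a' b' : ZMod 2, (a, b) ≠ (0, 0) → (a', b') ≠ (0, 0) →
    a * b' + b * a' = 0 → a = a' ∧ b = b' := by decide

theorem cl2 : S_CL2 := by
  classical
  intro m hm I hZ hI
  by_cases hcard : I.card < 2 ^ m
  · exact Or.inl hcard
  right
  push Not at hcard
  have hpos : 0 < I.card := lt_of_lt_of_le (pow_pos Nat.two_pos m) hcard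
  obtain ⟨v0, h0⟩ := Finset.card_pos.mp hpos
  obtain ⟨W, hW1, hW2⟩ := span_card I v0 h0 hI
  have hcos : ∀ w ∈ W, v0 + w ∈ I := by
    have h1 : Function.Injective (fun v : I => (⟨v.1 - v0, hW1 v.1 v.2⟩ : W)) := by
      intro v w h
      have h2 := congrArg Subtype.val h
      simp only at h2
      exact Subtype.ext (sub_left_inj.mp h2)
    have h2 : Nat.card I = Nat.card W := by
      apply le_antisymm
      · exact Nat.card_le_card_of_injective _ h1
      · rw [Nat.card_eq_fintype_card (α := I), Fintype.card_coe]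
        exact hW2.trans hcard
    have h3 := (Nat.bijective_iff_injective_and_card _).mpr ⟨h1, h2⟩
    intro w hw
    obtain ⟨v, hv⟩ := h3.2 ⟨w, hw⟩
    have h4 := congrArg Subtype.val hv
    simp only at h4
    rw [← h4, add_sub_cancel]
    exact v.2
  -- the polar form vanishes on `W`
  have hQ : ∀ w ∈ W, ∑ s, w.1 s * w.2 s = 0 := by
    intro w hw
    have h1 := hI _ (hcos w hw) v0 h0
    unfold Iso at h1
    rw [← h1]
    refine Finset.sum_congr rfl fun s _ => ?_
    simp only [Prod.fst_add, Prod.snd_add, Pi.add_apply, add_sub_cancel_left]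
  have hpol : ∀ w ∈ W, ∀ w' ∈ W, pol 2 m w w' = 0 := by
    intro w hw w' hw'
    have h1 := hQ _ (W.add_mem hw hw')
    have h2 : ∑ s, (w + w').1 s * (w + w').2 s =
        pol 2 m w w' + (∑ s, w.1 s * w.2 s + ∑ s, w'.1 s * w'.2 s) := by
      rw [pol_apply, ← Finset.sum_add_distrib, ← Finset.sum_add_distrib]
      refine Finset.sum_congr rfl fun s _ => ?_
      simp only [Prod.fst_add, Prod.snd_add, Pi.add_apply]
      ring
    rw [h2, hQ w hw, hQ w' hw', add_zero, add_zero] at h1
    exact h1
  have hthree : ∀ x ∈ I, ∀ y ∈ I, ∀ z ∈ I, x + y + z ∈ I := by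
    intro x hx y hy z hz
    have h1 : x + y + z = v0 + ((x - v0) + (y - v0) + (z - v0)) := by
      have h2 : v0 + v0 = 0 := by
        refine Prod.ext ?_ ?_ <;> funext s <;> exact CharTwo.add_self_eq_zero _
      have h3 : v0 + ((x - v0) + (y - v0) + (z - v0)) = x + y + z - (v0 + v0) := by abel
      rw [h3, h2, sub_zero]
    rw [h1]
    exact hcos _ (W.add_mem (W.add_mem (hW1 x hx) (hW1 y hy)) (hW1 z hz))
  have hZ' : ∀ v ∈ I, ∀ s, v.1 s * gam v.2 s = 0 := hZ
  -- the three conditions
  let T1 : Fin m → Prop := fun s => ∀ v ∈ I, v.1 s = 0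
  let T2 : Fin m → Prop := fun s => ∀ v ∈ I, gam v.2 s = 0
  have hdec : ∀ a b : ZMod 2, a * b = 0 → a ≠ 0 → b = 0 := by decide
  have hdec2 : ∀ a b : ZMod 2, a * b = 0 → b ≠ 0 → a = 0 := by decide
  have hne1 : ∀ a : ZMod 2, a ≠ 0 → a = 1 := by decide
  have hT3 : ∀ s, ¬ T1 s → ¬ T2 s → ∀ v ∈ I, v.1 s + gam v.2 s = 1 := by
    intro s h1 h2 z hz
    change ¬ ∀ v ∈ I, v.1 s = 0 at h1
    change ¬ ∀ v ∈ I, gam v.2 s = 0 at h2
    push Not at h1 h2
    obtain ⟨x, hx, hx1⟩ := h1
    obtain ⟨y, hy, hy1⟩ := h2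
    have hx2 := hdec _ _ (hZ' x hx s) hx1
    have hy2 := hdec2 _ _ (hZ' y hy s) hy1
    have h3 := hZ' _ (hthree x hx y hy z hz) s
    have h4 : (x + y + z).1 s = x.1 s + y.1 s + z.1 s := rfl
    have h5 : gam (x + y + z).2 s = gam x.2 s + gam y.2 s + gam z.2 s := by
      unfold gam
      simp only [Prod.snd_add, Pi.add_apply, Finset.sum_add_distrib]
      ring
    rw [h4, h5, hx2, hy2, hne1 _ hx1, hne1 _ hy1] at h3
    have h6 := hZ' z hz s
    have h7 : ∀ a b : ZMod 2, (1 + 0 + a) * (0 + 1 + b) = 0 → a * b = 0 → a + b = 1 := by decide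
    exact h7 _ _ h3 h6
  let Φ : I → V 2 m := fun v s => if T1 s then gam v.1.2 s else v.1.1 s
  have hgam_inj : ∀ v w : V 2 m, (∀ s, gam v s = gam w s) → v = w := by
    intro v w h
    funext s
    rw [c_eq2 hm v s, c_eq2 hm w s, h s, Finset.sum_congr rfl fun s _ => h s]
  have hΦ1 : ∀ (v : I) s, T1 s → Φ v s = gam v.1.2 s := fun v s h => if_pos h
  have hΦ2 : ∀ (v : I) s, ¬ T1 s → Φ v s = v.1.1 s := fun v s h => if_neg h
  have hΦ : Function.Injective Φ := by
    intro v w h
    apply Subtype.ext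
    have h1 : ∀ s, Φ v s = Φ w s := fun s => congrFun h s
    have h2 : ∀ s, v.1.1 s = w.1.1 s := by
      intro s
      by_cases hT : T1 s
      · rw [hT v.1 v.2, hT w.1 w.2]
      · rw [← hΦ2 v s hT, ← hΦ2 w s hT, h1]
    refine Prod.ext (funext h2) ?_
    apply hgam_inj
    intro s
    by_cases hT : T1 s
    · rw [← hΦ1 v s hT, ← hΦ1 w s hT, h1]
    · by_cases hT2 : T2 s
      · rw [hT2 v.1 v.2, hT2 w.1 w.2]
      · have h3 := hT3 s hT hT2 v.1 v.2
        have h4 := hT3 s hT hT2 w.1 w.2
        rw [h2 s, ← h4] at h3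
        exact add_left_cancel h3
  have hΦs : Function.Surjective Φ := by
    have h2 : Nat.card I = Nat.card (V 2 m) := by
      apply le_antisymm
      · exact Nat.card_le_card_of_injective _ hΦ
      · rw [Nat.card_eq_fintype_card (α := I), Fintype.card_coe, Nat.card_eq_fintype_card,
          Fintype.card_fun, ZMod.card, Fintype.card_fin]
        exact hcard
    exact ((Nat.bijective_iff_injective_and_card _).mpr ⟨hΦ, h2⟩).2
  -- the directions
  let α : Fin m → ZMod 2 := fun s => if T1 s then 0 else 1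
  let β : Fin m → ZMod 2 := fun s => if T1 s then 1 else if T2 s then 0 else 1
  have hαβ : ∀ s, (α s, β s) ≠ (0, 0) := by
    intro s
    change ((if T1 s then (0 : ZMod 2) else 1), (if T1 s then (1 : ZMod 2) else
      if T2 s then 0 else 1)) ≠ (0, 0)
    split_ifs <;> decide
  obtain ⟨w0, hw0⟩ := hΦs 0
  have hdir : ∀ s, ∃ w ∈ W, (∀ t, w.1 t = if t = s then α s else 0) ∧
      ∀ t, gam w.2 t = if t = s then β s else 0 := by
    intro s
    obtain ⟨v, hv⟩ := hΦs (Pi.single s 1)
    have hv1 : ∀ t, Φ v t - Φ w0 t = if t = s then 1 else 0 := by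
      intro t
      rw [hv, hw0, Pi.single_apply]
      simp
    refine ⟨v.1 - w0.1, ?_, ?_, ?_⟩
    · have h1 := W.sub_mem (hW1 v.1 v.2) (hW1 w0.1 w0.2)
      rw [sub_sub_sub_cancel_right] at h1
      exact h1
    · intro t
      change v.1.1 t - w0.1.1 t = _
      by_cases hT : T1 t
      · rw [hT v.1 v.2, hT w0.1 w0.2, sub_zero]
        by_cases hts : t = s
        · subst hts
          rw [if_pos rfl]
          exact (if_pos hT).symm
        · rw [if_neg hts]
      · rw [← hΦ2 v t hT, ← hΦ2 w0 t hT, hv1]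
        by_cases hts : t = s
        · subst hts
          rw [if_pos rfl, if_pos rfl]
          exact (if_neg hT).symm
        · rw [if_neg hts, if_neg hts]
    · intro t
      change gam (v.1.2 - w0.1.2) t = _
      rw [gam_sub]
      by_cases hT : T1 t
      · rw [← hΦ1 v t hT, ← hΦ1 w0 t hT, hv1]
        by_cases hts : t = s
        · subst hts
          rw [if_pos rfl, if_pos rfl]
          exact (if_pos hT).symm
        · rw [if_neg hts, if_neg hts]
      · by_cases hT2 : T2 t
        · rw [hT2 v.1 v.2, hT2 w0.1 w0.2, sub_zero]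
          by_cases hts : t = s
          · subst hts
            rw [if_pos rfl]
            change 0 = if T1 t then (1 : ZMod 2) else if T2 t then 0 else 1
            rw [if_neg hT, if_pos hT2]
          · rw [if_neg hts]
        · have h3 := hT3 t hT hT2 v.1 v.2
          have h4 := hT3 t hT hT2 w0.1 w0.2
          have h5 := hv1 t
          rw [hΦ2 v t hT, hΦ2 w0 t hT] at h5
          have h6 : ∀ a b c d e : ZMod 2, a + b = 1 → c + d = 1 → a - c = e → b - d = e := by
            decide
          rw [h6 _ _ _ _ _ h3 h4 h5]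
          by_cases hts : t = s
          · subst hts
            rw [if_pos rfl, if_pos rfl]
            change 1 = if T1 t then (1 : ZMod 2) else if T2 t then 0 else 1
            rw [if_neg hT, if_neg hT2]
          · rw [if_neg hts, if_neg hts]
  have hsame : ∀ s t, α s = α t ∧ β s = β t := by
    intro s t
    by_cases hst : s = t
    · subst hst
      exact ⟨rfl, rfl⟩
    · obtain ⟨w, hw, hw1, hw2⟩ := hdir s
      obtain ⟨w', hw', hw1', hw2'⟩ := hdir t
      have h1 := hpol w hw w' hw'
      rw [pol_gam hm] at h1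
      have h2 : ∑ x, (w.1 x * gam w'.2 x + gam w.2 x * w'.1 x) = 0 := by
        apply Finset.sum_eq_zero
        intro x _
        rw [hw1, hw2, hw1', hw2']
        by_cases hxs : x = s
        · subst hxs
          rw [if_neg hst, if_neg hst]
          simp
        · rw [if_neg hxs, if_neg hxs]
          simp
      have h3 : ∑ x, w.1 x = α s := by
        simp only [hw1]
        rw [Finset.sum_ite_eq' Finset.univ s, if_pos (Finset.mem_univ _)]
      have h4 : ∑ x, gam w.2 x = β s := by
        simp only [hw2]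
        rw [Finset.sum_ite_eq' Finset.univ s, if_pos (Finset.mem_univ _)]
      have h5 : ∑ x, w'.1 x = α t := by
        simp only [hw1']
        rw [Finset.sum_ite_eq' Finset.univ t, if_pos (Finset.mem_univ _)]
      have h6 : ∑ x, gam w'.2 x = β t := by
        simp only [hw2']
        rw [Finset.sum_ite_eq' Finset.univ t, if_pos (Finset.mem_univ _)]
      rw [h2, h3, h4, h5, h6, zero_add] at h1
      exact two_dim _ _ _ _ (hαβ s) (hαβ t) h1
  by_cases hall : ∀ s, T1 s
  · left
    intro v hv
    funext s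
    exact hall s v hv
  push Not at hall
  obtain ⟨l, hl⟩ := hall
  have hα1 : ∀ s, ¬ T1 s := by
    intro s hs
    have h1 := (hsame s l).1
    change (if T1 s then (0 : ZMod 2) else 1) = (if T1 l then (0 : ZMod 2) else 1) at h1
    rw [if_pos hs, if_neg hl] at h1
    exact absurd h1 (by decide)
  right
  by_cases hall2 : ∀ s, T2 s
  · left
    intro v hv
    apply hgam_inj
    intro s
    rw [hall2 s v hv]
    simp [gam]
  push Not at hall2
  obtain ⟨l', hl'⟩ := hall2
  right
  intro v hv s
  refine hT3 s (hα1 s) ?_ v hv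
  intro hs
  have h1 := (hsame s l').2
  change (if T1 s then (1 : ZMod 2) else if T2 s then 0 else 1) =
    (if T1 l' then (1 : ZMod 2) else if T2 l' then 0 else 1) at h1
  rw [if_neg (hα1 s), if_neg (hα1 l'), if_pos hs, if_neg hl'] at h1
  exact absurd h1 (by decide)

end Pool.Agent.D0H52.RM
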