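import Pool.Agent.D0H99.RM.Stm

set_option autoImplicit false

/-! Project RM, module MO: the proportion of the systems with a nonzero solution. -/

namespace Pool.Agent.D0H52.RM

open Finset Pool.Agent.D0H99.RM Filter Topology

section duality

variable {K : Type} [Field K] {A : Type} [AddCommGroup A] [Module K A] [Module.Finite K A]
  {ι : Type} [Fintype ι]

/-- the transposed map -/
noncomputable def tra (f : A →ₗ[K] (ι → K)) : (ι → K) →ₗ[K] Module.Dual K A where
  toFun c := ∑ i, c i • ((LinearMap.proj i).comp f)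
  map_add' c c' := by
    simp only [Pi.add_apply, add_smul, Finset.sum_add_distrib]
  map_smul' c x := by
    simp only [Pi.smul_apply, smul_eq_mul, mul_smul, Finset.smul_sum, RingHom.id_apply]

omit [Module.Finite K A] in
theorem tra_apply (f : A →ₗ[K] (ι → K)) (c : ι → K) (x : A) :
    tra f c x = ∑ i, c i * f x i := by
  simp [tra]

omit [Module.Finite K A] in
theorem tra_eq [DecidableEq ι] (f : A →ₗ[K] (ι → K)) :
    tra f = f.dualMap ∘ₗ (dotProductEquiv K ι).toLinearMap := by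
  apply LinearMap.ext
  intro c
  apply LinearMap.ext
  intro x
  rw [tra_apply]
  simp [dotProduct]

theorem card_ker [Finite K] (f : A →ₗ[K] (ι → K)) :
    Nat.card (LinearMap.ker f) * Nat.card (ι → K) =
      Nat.card A * Nat.card {c : ι → K // ∀ x, ∑ i, c i * f x i = 0} := by
  classical
  have h1 : Nat.card {c : ι → K // ∀ x, ∑ i, c i * f x i = 0} =
      Nat.card (LinearMap.ker (tra f)) := by
    refine Nat.card_congr (Equiv.subtypeEquivRight fun c => ?_)
    rw [LinearMap.mem_ker]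
    constructor
    · intro h
      apply LinearMap.ext
      intro x
      rw [tra_apply]
      exact h x
    · intro h x
      rw [← tra_apply, h]
      rfl
  have h2 : Module.finrank K (LinearMap.range (tra f)) = Module.finrank K (LinearMap.range f) := by
    rw [tra_eq, LinearMap.range_comp, LinearEquiv.range, Submodule.map_top,
      LinearMap.finrank_range_dualMap_eq_finrank_range]
  have h3 := LinearMap.finrank_range_add_finrank_ker f
  have h4 := LinearMap.finrank_range_add_finrank_ker (tra f)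
  rw [h1, Module.natCard_eq_pow_finrank (K := K) (V := LinearMap.ker f),
    Module.natCard_eq_pow_finrank (K := K) (V := ι → K),
    Module.natCard_eq_pow_finrank (K := K) (V := A),
    Module.natCard_eq_pow_finrank (K := K) (V := LinearMap.ker (tra f)), ← pow_add, ← pow_add]
  congr 1
  omega

end duality

section

variable {ℓ m r : ℕ} [hp : Fact ℓ.Prime]

theorem sy_add (B B' : ∀ i : Fin r, Fin (i : ℕ) → ZMod ℓ) (i j : Fin r) :
    sy (B + B') i j = sy B i j + sy B' i j := by
  unfold sy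
  split_ifs <;> simp

theorem sy_smul (c : ZMod ℓ) (B : ∀ i : Fin r, Fin (i : ℕ) → ZMod ℓ) (i j : Fin r) :
    sy (c • B) i j = c * sy B i j := by
  unfold sy
  split_ifs <;> simp

/-- the system as a linear map of the data -/
noncomputable def Lam (t : Fin r → ZMod ℓ) (a : Fin r → V ℓ m) :
    X ℓ m r →ₗ[ZMod ℓ] (Fin r × Fin m → ZMod ℓ) where
  toFun X := fun xb => ∑ y, t y * sy X.1 xb.1 y * (a xb.1 xb.2 - a y xb.2) +
    ∑ s, a xb.1 s * X.2 xb.1 s + a xb.1 xb.2 * X.2 xb.1 xb.2
  map_add' X X' := by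
    funext xb
    simp only [Prod.fst_add, Prod.snd_add, sy_add, Pi.add_apply, mul_add, add_mul,
      Finset.sum_add_distrib]
    ring
  map_smul' c X := by
    funext xb
    simp only [Prod.smul_fst, Prod.smul_snd, sy_smul, Pi.smul_apply, smul_eq_mul,
      RingHom.id_apply, mul_add, Finset.mul_sum]
    congr 1
    · congr 1
      · refine Finset.sum_congr rfl fun y _ => ?_
        ring
      · refine Finset.sum_congr rfl fun y _ => ?_
        ring
    · ring

theorem mem_ker_Lam (t : Fin r → ZMod ℓ) (a : Fin r → V ℓ m) (x : X ℓ m r) :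
    x ∈ LinearMap.ker (Lam t a) ↔ Sol t (sy x.1) x.2 a := by
  rw [LinearMap.mem_ker]
  constructor
  · intro h x b
    exact congrFun h (x, b)
  · intro h
    funext xb
    exact h xb.1 xb.2

/-- the annihilator of the image -/
def Ann (t : Fin r → ZMod ℓ) (a : Fin r → V ℓ m) : Type :=
  {c : Fin r × Fin m → ZMod ℓ // ∀ x, ∑ i, c i * Lam t a x i = 0}

/-- the pair of a solution and an element of the annihilator -/
def vv (t : Fin r → ZMod ℓ) (a : Fin r → V ℓ m) (c : Fin r × Fin m → ZMod ℓ) (x : Fin r) :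
    V ℓ m × V ℓ m := (a x, fun b => (t x)⁻¹ * c (x, b))

theorem ann_zc (t : Fin r → ZMod ℓ) (ht : ∀ i, t i ≠ 0) (a : Fin r → V ℓ m) (c : Ann t a)
    (x : Fin r) : Zc (vv t a c.1 x) := by
  classical
  intro s
  have h1 := c.2 (0, Pi.single x (Pi.single s 1))
  have h2 : ∀ i : Fin r × Fin m, Lam t a (0, Pi.single x (Pi.single s 1)) i =
      if i.1 = x then (a x s + if i.2 = s then a x s else 0) else 0 := by
    rintro ⟨y, b⟩
    change ∑ z, t z * sy (0 : ∀ i : Fin r, Fin (i : ℕ) → ZMod ℓ) y z * (a y b - a z b) +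
      ∑ s', a y s' * (Pi.single x (Pi.single s 1) : Fin r → V ℓ m) y s' +
      a y b * (Pi.single x (Pi.single s 1) : Fin r → V ℓ m) y b = _
    have h3 : ∀ z, sy (0 : ∀ i : Fin r, Fin (i : ℕ) → ZMod ℓ) y z = 0 := by
      intro z
      unfold sy
      split_ifs <;> rfl
    by_cases hy : y = x
    · subst hy
      simp only [h3, mul_zero, zero_mul, Finset.sum_const_zero, zero_add, Pi.single_eq_same,
        if_true]
      have h4 : ∑ s', a y s' * (Pi.single s 1 : V ℓ m) s' = a y s := by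
        rw [Finset.sum_eq_single s]
        · rw [Pi.single_eq_same, mul_one]
        · intro s' _ hs'
          rw [Pi.single_eq_of_ne hs', mul_zero]
        · intro h
          exact absurd (Finset.mem_univ _) h
      rw [h4]
      congr 1
      by_cases hb : b = s
      · subst hb
        rw [Pi.single_eq_same, mul_one, if_pos rfl]
      · rw [Pi.single_eq_of_ne hb, mul_zero, if_neg hb]
    · rw [Pi.single_eq_of_ne hy]
      simp [h3, hy]
  simp only [h2] at h1
  rw [Fintype.sum_prod_type, Finset.sum_eq_single x] at h1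
  · simp only [if_true] at h1
    have h3 : ∑ b, c.1 (x, b) * (a x s + if b = s then a x s else 0) =
        a x s * (c.1 (x, s) + ∑ b, c.1 (x, b)) := by
      simp only [mul_add, Finset.sum_add_distrib]
      have h4 : ∑ b, c.1 (x, b) * (if b = s then a x s else 0) = c.1 (x, s) * a x s := by
        rw [Finset.sum_eq_single s]
        · rw [if_pos rfl]
        · intro b _ hb
          rw [if_neg hb, mul_zero]
        · intro h
          exact absurd (Finset.mem_univ _) h
      rw [h4, ← Finset.sum_mul]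
      ring
    rw [h3] at h1
    change a x s * ((t x)⁻¹ * c.1 (x, s) + ∑ b, (t x)⁻¹ * c.1 (x, b)) = 0
    rw [← Finset.mul_sum, ← mul_add, mul_left_comm, h1, mul_zero]
  · intro y _ hy
    apply Finset.sum_eq_zero
    intro b _
    simp only [hy, if_false, mul_zero]
  · intro h
    exact absurd (Finset.mem_univ _) h

theorem ann_iso_lt (t : Fin r → ZMod ℓ) (ht : ∀ i, t i ≠ 0) (a : Fin r → V ℓ m) (c : Ann t a)
    (x y : Fin r) (hxy : (y : ℕ) < x) : Iso (vv t a c.1 x) (vv t a c.1 y) := by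
  classical
  let B : ∀ i : Fin r, Fin (i : ℕ) → ZMod ℓ := fun i j => if i = x ∧ (j : ℕ) = y then 1 else 0
  have hne : x ≠ y := by
    rintro rfl
    exact lt_irrefl _ hxy
  have hB : ∀ i j, sy B i j = if (i = x ∧ j = y) ∨ (i = y ∧ j = x) then 1 else 0 := by
    intro i j
    unfold sy
    by_cases h1 : (j : ℕ) < i
    · rw [dif_pos h1]
      change (if i = x ∧ (j : ℕ) = y then (1 : ZMod ℓ) else 0) = _
      by_cases h2 : i = x ∧ j = y
      · rw [if_pos ⟨h2.1, congrArg Fin.val h2.2⟩, if_pos (Or.inl h2)]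
      · rw [if_neg (fun h => h2 ⟨h.1, Fin.ext h.2⟩), if_neg]
        rintro (h | ⟨rfl, rfl⟩)
        · exact h2 h
        · omega
    · rw [dif_neg h1]
      by_cases h3 : (i : ℕ) < j
      · rw [dif_pos h3]
        change (if j = x ∧ (i : ℕ) = y then (1 : ZMod ℓ) else 0) = _
        by_cases h2 : j = x ∧ i = y
        · rw [if_pos ⟨h2.1, congrArg Fin.val h2.2⟩, if_pos (Or.inr ⟨h2.2, h2.1⟩)]
        · rw [if_neg (fun h => h2 ⟨h.1, Fin.ext h.2⟩), if_neg]
          rintro (⟨rfl, rfl⟩ | h)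
          · omega
          · exact h2 ⟨h.2, h.1⟩
      · rw [dif_neg h3, if_neg]
        have h4 : i = j := Fin.ext (by omega)
        rintro (⟨rfl, rfl⟩ | ⟨rfl, rfl⟩)
        · exact hne h4
        · exact hne h4.symm
  have h1 := c.2 (B, 0)
  have h2 : ∀ i : Fin r × Fin m, Lam t a (B, 0) i =
      (if i.1 = x then t y * (a x i.2 - a y i.2) else 0) +
        (if i.1 = y then t x * (a y i.2 - a x i.2) else 0) := by
    rintro ⟨i, b⟩
    change ∑ z, t z * sy B i z * (a i b - a z b) +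
      ∑ s', a i s' * (0 : Fin r → V ℓ m) i s' + a i b * (0 : Fin r → V ℓ m) i b = _
    simp only [Pi.zero_apply, mul_zero, Finset.sum_const_zero, add_zero, hB]
    by_cases hix : i = x
    · subst hix
      rw [if_pos rfl, if_neg hne, add_zero, Finset.sum_eq_single y]
      · simp
      · intro z _ hz
        rw [if_neg]
        · ring
        · rintro (h | h)
          · exact hz h.2
          · exact hne h.1
      · intro h
        exact absurd (Finset.mem_univ _) h
    · by_cases hiy : i = y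
      · subst hiy
        rw [if_neg hix, if_pos rfl, zero_add, Finset.sum_eq_single x]
        · simp
        · intro z _ hz
          rw [if_neg]
          · ring
          · rintro (h | h)
            · exact hix h.1
            · exact hz h.2
        · intro h
          exact absurd (Finset.mem_univ _) h
      · rw [if_neg hix, if_neg hiy, add_zero]
        apply Finset.sum_eq_zero
        intro z _
        rw [if_neg]
        · ring
        · rintro (h | h)
          · exact hix h.1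
          · exact hiy h.1
  simp only [h2, mul_add, Finset.sum_add_distrib] at h1
  have h3 : ∀ (w : Fin r) (g : Fin m → ZMod ℓ), ∑ i : Fin r × Fin m, c.1 i *
      (if i.1 = w then g i.2 else 0) = ∑ b, c.1 (w, b) * g b := by
    intro w g
    rw [Fintype.sum_prod_type, Finset.sum_eq_single w]
    · simp only [if_true]
    · intro z _ hz
      apply Finset.sum_eq_zero
      intro b _
      simp only [hz, if_false, mul_zero]
    · intro h
      exact absurd (Finset.mem_univ _) h
  rw [h3 x (fun b => t y * (a x b - a y b)), h3 y (fun b => t x * (a y b - a x b))] at h1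
  have h4 : ∑ b, c.1 (x, b) * (t y * (a x b - a y b)) + ∑ b, c.1 (y, b) * (t x * (a y b - a x b)) =
      (t x * t y) * ∑ b, (a x b - a y b) * ((t x)⁻¹ * c.1 (x, b) - (t y)⁻¹ * c.1 (y, b)) := by
    rw [← Finset.sum_add_distrib, Finset.mul_sum]
    refine Finset.sum_congr rfl fun b _ => ?_
    have := ht x
    have := ht y
    field_simp
    ring
  rw [h4] at h1
  exact (mul_eq_zero.mp h1).resolve_left (mul_ne_zero (ht x) (ht y))

theorem ann_iso (t : Fin r → ZMod ℓ) (ht : ∀ i, t i ≠ 0) (a : Fin r → V ℓ m) (c : Ann t a)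
    (x y : Fin r) : Iso (vv t a c.1 x) (vv t a c.1 y) := by
  rcases lt_trichotomy (y : ℕ) x with h | h | h
  · exact ann_iso_lt t ht a c x y h
  · have : y = x := Fin.ext h
    subst this
    unfold Iso
    simp
  · have h1 := ann_iso_lt t ht a c y x h
    unfold Iso at h1 ⊢
    refine Eq.trans ?_ h1
    refine Finset.sum_congr rfl fun s _ => ?_
    ring

/-- the good maps -/
def Good (ℓ m r : ℕ) : Set (Fin r → V ℓ m × V ℓ m) :=
  {v | (∀ x, Zc (v x)) ∧ ∀ x y, Iso (v x) (v y)}

theorem card_V : Fintype.card (V ℓ m) = ℓ ^ m := by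
  rw [Fintype.card_fun, ZMod.card, Fintype.card_fin]

theorem good_card (h : S_CL) (hℓ2 : ℓ ≠ 2) (hm : ¬ ℓ ∣ m + 1) :
    (Good ℓ m r).ncard ≤ 2 * (ℓ ^ m) ^ r + 2 ^ (ℓ ^ m * ℓ ^ m) * (ℓ ^ m - 1) ^ r := by
  classical
  let A1 : Finset (Fin r → V ℓ m × V ℓ m) :=
    Finset.univ.image (fun u : Fin r → V ℓ m => fun x => ((0 : V ℓ m), u x))
  let A2 : Finset (Fin r → V ℓ m × V ℓ m) :=
    Finset.univ.image (fun u : Fin r → V ℓ m => fun x => (u x, (0 : V ℓ m)))
  let A3 : Finset (Fin r → V ℓ m × V ℓ m) :=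
    (Finset.univ.filter (fun I : Finset (V ℓ m × V ℓ m) => I.card ≤ ℓ ^ m - 1)).biUnion
      (fun I => Fintype.piFinset (fun _ => I))
  have h1 : Good ℓ m r ⊆ ((A1 ∪ A2 ∪ A3 : Finset _) : Set (Fin r → V ℓ m × V ℓ m)) := by
    intro v hv
    have h2 := h ℓ m hp.out hℓ2 hm (Finset.univ.image v)
      (by
        intro w hw
        obtain ⟨x, -, rfl⟩ := Finset.mem_image.mp hw
        exact hv.1 x)
      (by
        intro w hw w' hw'
        obtain ⟨x, -, rfl⟩ := Finset.mem_image.mp hw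
        obtain ⟨y, -, rfl⟩ := Finset.mem_image.mp hw'
        exact hv.2 x y)
    rw [Finset.mem_coe, Finset.mem_union, Finset.mem_union]
    rcases h2 with h2 | h2 | h2
    · right
      refine Finset.mem_biUnion.mpr ⟨Finset.univ.image v, ?_, ?_⟩
      · exact Finset.mem_filter.mpr ⟨Finset.mem_univ _, by omega⟩
      · exact Fintype.mem_piFinset.mpr fun x => Finset.mem_image_of_mem _ (Finset.mem_univ x)
    · left
      left
      refine Finset.mem_image.mpr ⟨fun x => (v x).2, Finset.mem_univ _, ?_⟩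
      funext x
      exact Prod.ext (h2 _ (Finset.mem_image_of_mem _ (Finset.mem_univ x))).symm rfl
    · left
      right
      refine Finset.mem_image.mpr ⟨fun x => (v x).1, Finset.mem_univ _, ?_⟩
      funext x
      exact Prod.ext rfl (h2 _ (Finset.mem_image_of_mem _ (Finset.mem_univ x))).symm
  have hA1 : A1.card ≤ (ℓ ^ m) ^ r := by
    refine Finset.card_image_le.trans ?_
    rw [Finset.card_univ, Fintype.card_fun, card_V, Fintype.card_fin]
  have hA2 : A2.card ≤ (ℓ ^ m) ^ r := by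
    refine Finset.card_image_le.trans ?_
    rw [Finset.card_univ, Fintype.card_fun, card_V, Fintype.card_fin]
  have hA3 : A3.card ≤ 2 ^ (ℓ ^ m * ℓ ^ m) * (ℓ ^ m - 1) ^ r := by
    refine (Finset.card_biUnion_le_card_mul _ _ ((ℓ ^ m - 1) ^ r) ?_).trans ?_
    · intro I hI
      rw [Fintype.card_piFinset_const]
      exact Nat.pow_le_pow_left (Finset.mem_filter.mp hI).2 r
    · refine Nat.mul_le_mul_right _ ?_
      refine (Finset.card_filter_le _ _).trans ?_
      rw [Finset.card_univ, Fintype.card_finset, Fintype.card_prod, card_V]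
  calc (Good ℓ m r).ncard ≤ ((A1 ∪ A2 ∪ A3 : Finset _) : Set (Fin r → V ℓ m × V ℓ m)).ncard :=
        Set.ncard_le_ncard h1 (Finset.finite_toSet _)
    _ = (A1 ∪ A2 ∪ A3).card := Set.ncard_coe_finset _
    _ ≤ A1.card + A2.card + A3.card :=
        (Finset.card_union_le _ _).trans (Nat.add_le_add_right (Finset.card_union_le _ _) _)
    _ ≤ _ := by omega

theorem sum_ann (t : Fin r → ZMod ℓ) (ht : ∀ i, t i ≠ 0) :
    ∑ a : Fin r → V ℓ m, Nat.card (Ann t a) ≤ (Good ℓ m r).ncard := by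
  classical
  have hf : ∀ a : Fin r → V ℓ m, Finite (Ann t a) := by
    intro a
    unfold Ann
    infer_instance
  rw [← Nat.card_sigma, ← Nat.card_coe_set_eq]
  refine Nat.card_le_card_of_injective (fun ac : (Σ a : Fin r → V ℓ m, Ann t a) =>
    (⟨vv t ac.1 ac.2.1, fun x => ann_zc t ht ac.1 ac.2 x,
      fun x y => ann_iso t ht ac.1 ac.2 x y⟩ : Good ℓ m r)) ?_
  rintro ⟨a, c⟩ ⟨a', c'⟩ h
  have h1 : vv t a c.1 = vv t a' c'.1 := congrArg Subtype.val h
  have h2 : a = a' := by
    funext x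
    exact congrArg Prod.fst (congrFun h1 x)
  subst h2
  have h3 : c = c' := by
    apply Subtype.ext
    funext ⟨x, b⟩
    have h4 : (fun b => (t x)⁻¹ * c.1 (x, b)) = (fun b => (t x)⁻¹ * c'.1 (x, b)) :=
      congrArg Prod.snd (congrFun h1 x)
    have h5 := congrFun h4 b
    exact mul_left_cancel₀ (inv_ne_zero (ht x)) h5
  rw [h3]

theorem sol_smul (t : Fin r → ZMod ℓ) (A : Fin r → Fin r → ZMod ℓ) (p a : Fin r → V ℓ m)
    (τ : ZMod ℓ) (h : Sol t A p a) : Sol t A p (τ • a) := by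
  intro x b
  have h1 := h x b
  have h2 : ∑ y, t y * A x y * ((τ • a) x b - (τ • a) y b) + ∑ s, (τ • a) x s * p x s +
      (τ • a) x b * p x b = τ * (∑ y, t y * A x y * (a x b - a y b) + ∑ s, a x s * p x s +
        a x b * p x b) := by
    simp only [Pi.smul_apply, smul_eq_mul, mul_add, Finset.mul_sum]
    congr 1
    · congr 1
      · refine Finset.sum_congr rfl fun y _ => ?_
        ring
      · refine Finset.sum_congr rfl fun y _ => ?_
        ring
    · ring
  rw [h2, h1, mul_zero]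

theorem sol_zero (t : Fin r → ZMod ℓ) (A : Fin r → Fin r → ZMod ℓ) (p : Fin r → V ℓ m) :
    Sol t A p 0 := by
  intro x b
  simp

/-- the main inequality -/
theorem main_ineq (h : S_CL) (hℓ2 : ℓ ≠ 2) (hm : ¬ ℓ ∣ m + 1) (t : Fin r → ZMod ℓ)
    (ht : ∀ i, t i ≠ 0) :
    (Nat.card (X ℓ m r) + (ℓ - 1) *
      ({x : X ℓ m r | ∃ a : Fin r → V ℓ m, a ≠ 0 ∧ Sol t (sy x.1) x.2 a}).ncard) * (ℓ ^ m) ^ r ≤
    Nat.card (X ℓ m r) * (2 * (ℓ ^ m) ^ r + 2 ^ (ℓ ^ m * ℓ ^ m) * (ℓ ^ m - 1) ^ r) := by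
  classical
  let S : Finset (X ℓ m r) :=
    Finset.univ.filter fun x => ∃ a : Fin r → V ℓ m, a ≠ 0 ∧ Sol t (sy x.1) x.2 a
  have hS : ({x : X ℓ m r | ∃ a : Fin r → V ℓ m, a ≠ 0 ∧ Sol t (sy x.1) x.2 a}).ncard = S.card := by
    rw [← Set.ncard_coe_finset]
    congr 1
    ext x
    simp [S]
  have h1 : ∀ a : Fin r → V ℓ m, Nat.card (LinearMap.ker (Lam t a)) =
      ∑ x : X ℓ m r, if Sol t (sy x.1) x.2 a then 1 else 0 := by
    intro a
    rw [← Finset.card_filter, Nat.card_eq_fintype_card, Fintype.card_subtype]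
    congr 1
    ext x
    rw [Finset.mem_filter, Finset.mem_filter, mem_ker_Lam]
  have h2 : ∀ x : X ℓ m r, 1 + (ℓ - 1) * (if x ∈ S then 1 else 0) ≤
      ∑ a : Fin r → V ℓ m, if Sol t (sy x.1) x.2 a then 1 else 0 := by
    intro x
    rw [← Finset.card_filter]
    by_cases hx : x ∈ S
    · rw [if_pos hx]
      obtain ⟨a, ha, hsol⟩ := (Finset.mem_filter.mp hx).2
      have h3 : (Finset.univ.image fun τ : ZMod ℓ => τ • a) ⊆
          Finset.univ.filter fun a : Fin r → V ℓ m => Sol t (sy x.1) x.2 a := by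
        intro a' ha'
        obtain ⟨τ, -, rfl⟩ := Finset.mem_image.mp ha'
        exact Finset.mem_filter.mpr ⟨Finset.mem_univ _, sol_smul t _ _ a τ hsol⟩
      have h4 := Finset.card_le_card h3
      rw [Finset.card_image_of_injective _ (smul_left_injective (ZMod ℓ) ha), Finset.card_univ,
        ZMod.card] at h4
      have := hp.out.pos
      omega
    · rw [if_neg hx, mul_zero, add_zero]
      exact Finset.card_pos.mpr ⟨0, Finset.mem_filter.mpr ⟨Finset.mem_univ _, sol_zero t _ _⟩⟩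
  have h3 : Nat.card (X ℓ m r) + (ℓ - 1) * S.card ≤
      ∑ a : Fin r → V ℓ m, Nat.card (LinearMap.ker (Lam t a)) := by
    simp only [h1]
    rw [Finset.sum_comm]
    refine le_trans ?_ (Finset.sum_le_sum fun x _ => h2 x)
    rw [Finset.sum_add_distrib, ← Finset.mul_sum, Finset.sum_const, Finset.card_univ,
      Nat.card_eq_fintype_card, smul_eq_mul, mul_one]
    apply Nat.add_le_add_left
    apply Nat.mul_le_mul_left
    rw [← Finset.card_filter]
    apply Finset.card_le_card
    intro x hx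
    exact Finset.mem_filter.mpr ⟨Finset.mem_univ _, hx⟩
  have h4 : (∑ a : Fin r → V ℓ m, Nat.card (LinearMap.ker (Lam t a))) * (ℓ ^ m) ^ r =
      Nat.card (X ℓ m r) * ∑ a : Fin r → V ℓ m, Nat.card (Ann t a) := by
    rw [Finset.sum_mul, Finset.mul_sum]
    refine Finset.sum_congr rfl fun a _ => ?_
    have h5 := card_ker (Lam t a)
    have h6 : Nat.card (Fin r × Fin m → ZMod ℓ) = (ℓ ^ m) ^ r := by
      rw [Nat.card_eq_fintype_card, Fintype.card_fun, ZMod.card, Fintype.card_prod,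
        Fintype.card_fin, Fintype.card_fin, ← pow_mul, mul_comm]
    rw [h6] at h5
    exact h5
  rw [hS]
  calc (Nat.card (X ℓ m r) + (ℓ - 1) * S.card) * (ℓ ^ m) ^ r
      ≤ (∑ a : Fin r → V ℓ m, Nat.card (LinearMap.ker (Lam t a))) * (ℓ ^ m) ^ r :=
        Nat.mul_le_mul_right _ h3
    _ = Nat.card (X ℓ m r) * ∑ a : Fin r → V ℓ m, Nat.card (Ann t a) := h4
    _ ≤ _ := Nat.mul_le_mul_left _ ((sum_ann t ht).trans (good_card h hℓ2 hm))

end

theorem mo (h : S_CL) : S_MO := by
  intro ℓ m hℓ hℓ2 hm ε hε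
  have hp : Fact ℓ.Prime := ⟨hℓ⟩
  have hL : (0 : ℝ) < (ℓ : ℝ) ^ m := pow_pos (by exact_mod_cast hℓ.pos) m
  have hL1 : (1 : ℝ) ≤ (ℓ : ℝ) ^ m := one_le_pow₀ (by exact_mod_cast hℓ.one_lt.le)
  let q : ℝ := ((ℓ : ℝ) ^ m - 1) / (ℓ : ℝ) ^ m
  have hq0 : 0 ≤ q := div_nonneg (by linarith) hL.le
  have hq1 : q < 1 := by
    rw [div_lt_one hL]
    linarith
  let C : ℝ := 2 ^ (ℓ ^ m * ℓ ^ m)
  have htend : Tendsto (fun r : ℕ => C * q ^ r) atTop (𝓝 0) := by
    have h1 := (tendsto_pow_atTop_nhds_zero_of_lt_one hq0 hq1).const_mul C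
    rw [mul_zero] at h1
    exact h1
  obtain ⟨r0, hr0⟩ := eventually_atTop.mp (htend.eventually (gt_mem_nhds hε))
  refine ⟨r0, fun r hr t ht => ?_⟩
  have h1 := main_ineq (r := r) h hℓ2 hm t ht
  set s := ({x : X ℓ m r | ∃ a : Fin r → V ℓ m, a ≠ 0 ∧ Sol t (sy x.1) x.2 a}).ncard with hs
  set N := Nat.card (X ℓ m r) with hN
  have hℓm : 1 ≤ ℓ ^ m := Nat.one_le_pow _ _ hℓ.pos
  have h2 : ((N : ℝ) + ((ℓ : ℝ) - 1) * s) * ((ℓ : ℝ) ^ m) ^ r ≤
      N * (2 * ((ℓ : ℝ) ^ m) ^ r + C * ((ℓ : ℝ) ^ m - 1) ^ r) := by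
    have h3 : (((N + (ℓ - 1) * s) * (ℓ ^ m) ^ r : ℕ) : ℝ) ≤
        ((N * (2 * (ℓ ^ m) ^ r + 2 ^ (ℓ ^ m * ℓ ^ m) * (ℓ ^ m - 1) ^ r) : ℕ) : ℝ) := by
      exact_mod_cast h1
    push_cast [Nat.cast_sub hℓ.pos, Nat.cast_sub hℓm] at h3
    exact h3
  have h3 : ((ℓ : ℝ) ^ m - 1) ^ r = q ^ r * ((ℓ : ℝ) ^ m) ^ r := by
    rw [← mul_pow]
    congr 1
    change _ = ((ℓ : ℝ) ^ m - 1) / (ℓ : ℝ) ^ m * (ℓ : ℝ) ^ m
    rw [div_mul_cancel₀ _ hL.ne']
  rw [h3] at h2
  have h4 : (0 : ℝ) < ((ℓ : ℝ) ^ m) ^ r := pow_pos hL r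
  have h5 : (N : ℝ) + ((ℓ : ℝ) - 1) * s ≤ N * (2 + C * q ^ r) := by
    refine le_of_mul_le_mul_right ?_ h4
    calc _ ≤ _ := h2
      _ = _ := by ring
  have h6 : C * q ^ r < ε := hr0 r hr
  have h7 : (1 : ℝ) < ℓ := by exact_mod_cast hℓ.one_lt
  have h7' : (2 : ℝ) ≤ ℓ := by exact_mod_cast hℓ.two_le
  have hN0 : (0 : ℝ) ≤ N := Nat.cast_nonneg _
  have h8 : ((ℓ : ℝ) - 1) * s ≤ N * (1 + ε) := by nlinarith
  have h9 : (0 : ℝ) < (ℓ : ℝ) - 1 := by linarith
  have h10 : (s : ℝ) ≤ N * (1 + ε) / ((ℓ : ℝ) - 1) := by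
    rw [le_div_iff₀ h9]
    linarith
  refine h10.trans ?_
  have h11 : N * (1 + ε) / ((ℓ : ℝ) - 1) = (1 / ((ℓ : ℝ) - 1) + ε / ((ℓ : ℝ) - 1)) * N := by
    field_simp
  rw [h11]
  refine mul_le_mul_of_nonneg_right ?_ hN0
  have h12 : ε / ((ℓ : ℝ) - 1) ≤ ε := div_le_self hε.le (by linarith)
  linarith

end Pool.Agent.D0H52.RM
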