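import Pool.Agent.D0H99.RM.Stm2

set_option autoImplicit false

/-! Project RM, module PAR: parity of the dimension of the space of the solutions. -/

namespace Pool.Agent.D0H52.RM

open Finset Pool.Agent.D0H99.RM Matrix

section alternating

variable {J : Type} [Fintype J] [DecidableEq J]

theorem det_alt_odd (G : Matrix J J (ZMod 2)) (hs : Gᵀ = G) (hd : ∀ i, G i i = 0)
    (hodd : ¬ 2 ∣ Fintype.card J) : G.det = 0 := by
  rw [Matrix.det_apply]
  have hs' : ∀ i j, G i j = G j i := fun i j => by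
    conv_lhs => rw [← hs]
    rfl
  refine Finset.sum_involution (fun σ _ => σ⁻¹) ?_ ?_ ?_ ?_
  · intro σ _
    have h1 : ∏ i, G (σ⁻¹ i) i = ∏ i, G (σ i) i := by
      rw [← Equiv.prod_comp σ]
      refine Finset.prod_congr rfl fun i _ => ?_
      have h2 : σ⁻¹ (σ i) = i := σ.symm_apply_apply i
      rw [h2]
      exact hs' _ _
    rw [h1, Equiv.Perm.sign_inv]
    exact CharTwo.add_self_eq_zero _
  · intro σ _ hne heq
    apply hne
    have h1 : σ ^ 2 ^ 1 = 1 := by
      rw [pow_one, pow_two]
      nth_rewrite 1 [← heq]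
      exact inv_mul_cancel σ
    obtain ⟨a, ha⟩ := Equiv.Perm.exists_fixed_point_of_prime hodd h1
    have h2 : ∏ i, G (σ i) i = 0 := by
      apply Finset.prod_eq_zero (Finset.mem_univ a)
      rw [ha]
      exact hd a
    rw [h2, smul_zero]
  · intro σ _
    exact Finset.mem_univ _
  · intro σ _
    exact inv_inv σ

/-- the dimension of the kernel of an alternating matrix -/
theorem alt_even (M : Matrix J J (ZMod 2)) (hs : Mᵀ = M) (hd : ∀ i, M i i = 0) :
    Even (Fintype.card J - Module.finrank (ZMod 2) (LinearMap.ker M.mulVecLin)) := by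
  by_contra hno
  rw [Nat.not_even_iff_odd] at hno
  obtain ⟨D, hD⟩ := (LinearMap.ker M.mulVecLin).exists_isCompl
  have hdim : Module.finrank (ZMod 2) D =
      Fintype.card J - Module.finrank (ZMod 2) (LinearMap.ker M.mulVecLin) := by
    have h2 := Submodule.finrank_add_eq_of_isCompl hD
    rw [Module.finrank_fintype_fun_eq_card] at h2
    omega
  rw [← hdim] at hno
  have hsym : ∀ x y : J → ZMod 2, x ⬝ᵥ M *ᵥ y = y ⬝ᵥ M *ᵥ x := by
    intro x y
    rw [Matrix.dotProduct_mulVec, ← Matrix.mulVec_transpose, hs, dotProduct_comm]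
  have halt : ∀ x : J → ZMod 2, x ⬝ᵥ M *ᵥ x = 0 := by
    intro x
    change ∑ i, x i * ∑ j, M i j * x j = 0
    simp only [Finset.mul_sum]
    rw [← Finset.sum_product']
    refine Finset.sum_involution (fun p _ => (p.2, p.1)) ?_ ?_ ?_ ?_
    · intro p _
      have h1 : M p.2 p.1 = M p.1 p.2 := by
        conv_lhs => rw [← hs]
        rfl
      change x p.1 * (M p.1 p.2 * x p.2) + x p.2 * (M p.2 p.1 * x p.1) = 0
      rw [h1]
      have h2 : x p.1 * (M p.1 p.2 * x p.2) + x p.2 * (M p.1 p.2 * x p.1) =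
          x p.1 * (M p.1 p.2 * x p.2) + x p.1 * (M p.1 p.2 * x p.2) := by ring
      rw [h2]
      exact CharTwo.add_self_eq_zero _
    · intro p _ hne heq
      apply hne
      have h1 : p.2 = p.1 := congrArg Prod.fst heq
      change x p.1 * (M p.1 p.2 * x p.2) = 0
      rw [h1, hd, zero_mul, mul_zero]
    · intro p _
      exact Finset.mem_product.mpr ⟨Finset.mem_univ _, Finset.mem_univ _⟩
    · intro p _
      rfl
  let e := Module.finBasis (ZMod 2) D
  let G : Matrix (Fin (Module.finrank (ZMod 2) D)) (Fin (Module.finrank (ZMod 2) D)) (ZMod 2) :=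
    fun i j => (e i : J → ZMod 2) ⬝ᵥ M *ᵥ (e j : J → ZMod 2)
  have hdet : G.det = 0 := by
    apply det_alt_odd
    · ext i j
      exact hsym _ _
    · intro i
      exact halt _
    · rw [Fintype.card_fin]
      rcases hno with ⟨k, hk⟩
      omega
  obtain ⟨v, hv0, hv⟩ := Matrix.exists_mulVec_eq_zero_iff.2 hdet
  let r : D := ∑ j, v j • e j
  have hr0 : r ≠ 0 := by
    intro h
    apply hv0
    have := e.linearIndependent
    rw [Fintype.linearIndependent_iff] at this
    exact funext (this v h)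
  have hre : ∀ i, (e i : J → ZMod 2) ⬝ᵥ M *ᵥ (r : J → ZMod 2) = 0 := by
    intro i
    have h1 := congrFun hv i
    change ∑ j, G i j * v j = 0 at h1
    have h2 : (r : J → ZMod 2) = ∑ j, v j • (e j : J → ZMod 2) := by
      change ((∑ j, v j • e j : D) : J → ZMod 2) = _
      rw [Submodule.coe_sum]
      rfl
    rw [h2, Matrix.mulVec_sum, dotProduct_sum]
    rw [← h1]
    refine Finset.sum_congr rfl fun j _ => ?_
    rw [Matrix.mulVec_smul, dotProduct_smul, smul_eq_mul, mul_comm]
  have hD' : ∀ x ∈ D, x ⬝ᵥ M *ᵥ (r : J → ZMod 2) = 0 := by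
    intro x hx
    have h1 : x = ∑ i, e.repr ⟨x, hx⟩ i • (e i : J → ZMod 2) := by
      have h2 := congrArg (fun z : D => (z : J → ZMod 2)) (e.sum_repr ⟨x, hx⟩)
      simp only [Submodule.coe_sum, Submodule.coe_smul] at h2
      exact h2.symm
    rw [h1, sum_dotProduct]
    apply Finset.sum_eq_zero
    intro i _
    rw [smul_dotProduct, hre, smul_zero]
  have hall : ∀ x : J → ZMod 2, x ⬝ᵥ M *ᵥ (r : J → ZMod 2) = 0 := by
    intro x
    have h1 : x ∈ LinearMap.ker M.mulVecLin ⊔ D := by
      rw [hD.sup_eq_top]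
      trivial
    obtain ⟨y, hy, z, hz, rfl⟩ := Submodule.mem_sup.mp h1
    rw [add_dotProduct, hD' z hz, add_zero, hsym]
    have h2 : M *ᵥ y = 0 := hy
    rw [h2, dotProduct_zero]
  have hker : (r : J → ZMod 2) ∈ LinearMap.ker M.mulVecLin := by
    rw [LinearMap.mem_ker]
    change M *ᵥ (r : J → ZMod 2) = 0
    funext i
    have h1 := hall (Pi.single i 1)
    rw [single_one_dotProduct] at h1
    exact h1
  have hbot : (r : J → ZMod 2) ∈ (⊥ : Submodule (ZMod 2) (J → ZMod 2)) := by
    rw [← hD.inf_eq_bot]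
    exact ⟨hker, r.2⟩
  rw [Submodule.mem_bot] at hbot
  exact hr0 (Subtype.ext hbot)

/-- parity of the dimension of the kernel of a symmetric matrix whose diagonal is in its image -/
theorem parity (M : Matrix J J (ZMod 2)) (hs : Mᵀ = M) (w : J → ZMod 2)
    (hw : ∀ i, (M *ᵥ w) i = M i i) (hJ : Even (Fintype.card J)) :
    ((Module.finrank (ZMod 2) (LinearMap.ker M.mulVecLin) : ℕ) : ZMod 2) =
      ∑ i, w i * M i i := by
  let δ : J → ZMod 2 := fun i => M i i
  let M' : Matrix J J (ZMod 2) := M + vecMulVec δ δ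
  have hM's : M'ᵀ = M' := by
    change (M + vecMulVec δ δ)ᵀ = M + vecMulVec δ δ
    rw [Matrix.transpose_add, hs, transpose_vecMulVec]
  have hM'd : ∀ i, M' i i = 0 := by
    intro i
    change M i i + M i i * M i i = 0
    have h1 : ∀ a : ZMod 2, a + a * a = 0 := by decide
    exact h1 _
  have heven := alt_even M' hM's hM'd
  have hmul : ∀ u : J → ZMod 2, M' *ᵥ u = M *ᵥ u + (δ ⬝ᵥ u) • δ := by
    intro u
    change (M + vecMulVec δ δ) *ᵥ u = _
    rw [Matrix.add_mulVec, vecMulVec_mulVec]
    congr 1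
    funext i
    change MulOpposite.op (δ ⬝ᵥ u) • δ i = (δ ⬝ᵥ u) * δ i
    rw [MulOpposite.smul_eq_mul_unop, MulOpposite.unop_op, mul_comm]
  have hMw : M *ᵥ w = δ := funext hw
  have hsym : ∀ x y : J → ZMod 2, x ⬝ᵥ M *ᵥ y = y ⬝ᵥ M *ᵥ x := by
    intro x y
    rw [Matrix.dotProduct_mulVec, ← Matrix.mulVec_transpose, hs, dotProduct_comm]
  have hle : Module.finrank (ZMod 2) (LinearMap.ker M'.mulVecLin) ≤ Fintype.card J := by
    have h1 := Submodule.finrank_le (LinearMap.ker M'.mulVecLin)
    rw [Module.finrank_fintype_fun_eq_card] at h1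
    exact h1
  have heven2 : Even (Module.finrank (ZMod 2) (LinearMap.ker M'.mulVecLin)) := by
    have h1 : Fintype.card J = (Fintype.card J -
        Module.finrank (ZMod 2) (LinearMap.ker M'.mulVecLin)) +
        Module.finrank (ZMod 2) (LinearMap.ker M'.mulVecLin) := by omega
    rw [h1, Nat.even_add] at hJ
    exact hJ.mp heven
  have hsum : ∑ i, w i * M i i = δ ⬝ᵥ w := by
    change _ = ∑ i, M i i * w i
    refine Finset.sum_congr rfl fun i _ => ?_
    ring
  rw [hsum]
  have hcases : ∀ a : ZMod 2, a = 0 ∨ a = 1 := by decide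
  rcases hcases (δ ⬝ᵥ w) with hc | hc
  · -- the involution
    rw [hc]
    let T : (J → ZMod 2) →ₗ[ZMod 2] (J → ZMod 2) :=
      { toFun := fun u => u + (δ ⬝ᵥ u) • w
        map_add' := fun u v => by
          rw [dotProduct_add, add_smul]
          abel
        map_smul' := fun c u => by
          rw [dotProduct_smul, smul_add, RingHom.id_apply, smul_eq_mul, mul_smul] }
    have hT : Function.Involutive T := by
      intro u
      change (u + (δ ⬝ᵥ u) • w) + (δ ⬝ᵥ (u + (δ ⬝ᵥ u) • w)) • w = u
      rw [dotProduct_add, dotProduct_smul, hc, smul_zero, add_zero, add_assoc, ← add_smul,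
        CharTwo.add_self_eq_zero, zero_smul, add_zero]
    let E : (J → ZMod 2) ≃ₗ[ZMod 2] (J → ZMod 2) := LinearEquiv.ofInvolutive T hT
    have h1 : (LinearMap.ker M'.mulVecLin).map (E : (J → ZMod 2) →ₗ[ZMod 2] (J → ZMod 2)) =
        LinearMap.ker M.mulVecLin := by
      have h2 : ∀ u, M' *ᵥ u = M *ᵥ (T u) := by
        intro u
        rw [hmul]
        change _ = M *ᵥ (u + (δ ⬝ᵥ u) • w)
        rw [Matrix.mulVec_add, Matrix.mulVec_smul, hMw]
      ext v
      rw [Submodule.mem_map]
      constructor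
      · rintro ⟨u, hu, rfl⟩
        have h3 : M' *ᵥ u = 0 := hu
        rw [h2] at h3
        exact h3
      · intro hv
        refine ⟨T v, ?_, hT v⟩
        change M' *ᵥ (T v) = 0
        rw [h2, hT v]
        exact hv
    rw [← h1, LinearEquiv.finrank_map_eq]
    rw [(ZMod.natCast_eq_zero_iff_even).mpr heven2]
  · rw [hc]
    let ψ : (J → ZMod 2) →ₗ[ZMod 2] ZMod 2 :=
      { toFun := fun u => δ ⬝ᵥ u
        map_add' := fun u v => dotProduct_add _ _ _
        map_smul' := fun c u => by
          rw [dotProduct_smul, RingHom.id_apply] }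
    have hψ : ∀ u, ψ u = δ ⬝ᵥ u := fun u => rfl
    have hinf : LinearMap.ker M'.mulVecLin ⊓ LinearMap.ker ψ = LinearMap.ker M.mulVecLin := by
      ext u
      rw [Submodule.mem_inf, LinearMap.mem_ker, LinearMap.mem_ker, LinearMap.mem_ker, hψ]
      change M' *ᵥ u = 0 ∧ _ ↔ M *ᵥ u = 0
      rw [hmul]
      constructor
      · rintro ⟨h1, h2⟩
        rw [h2, zero_smul, add_zero] at h1
        exact h1
      · intro h1
        have h2 : δ ⬝ᵥ u = 0 := by
          rw [← hMw, dotProduct_comm, hsym, h1, dotProduct_zero]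
        rw [h1, h2, zero_smul, add_zero]
        exact ⟨rfl, rfl⟩
    have hwk : w ∈ LinearMap.ker M'.mulVecLin := by
      rw [LinearMap.mem_ker]
      change M' *ᵥ w = 0
      rw [hmul, hMw, hc, one_smul]
      funext i
      exact CharTwo.add_self_eq_zero _
    have hsup : LinearMap.ker M'.mulVecLin ⊔ LinearMap.ker ψ = ⊤ := by
      rw [eq_top_iff]
      intro u _
      have h1 : u = ψ u • w + (u - ψ u • w) := by abel
      rw [h1]
      refine Submodule.add_mem_sup (Submodule.smul_mem _ _ hwk) ?_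
      rw [LinearMap.mem_ker, map_sub, map_smul, hψ w, hc, smul_eq_mul, mul_one, sub_self]
    have hrange : LinearMap.range ψ = ⊤ := by
      rw [LinearMap.range_eq_top]
      intro t
      refine ⟨t • w, ?_⟩
      rw [map_smul, hψ, hc, smul_eq_mul, mul_one]
    have h1 := LinearMap.finrank_range_add_finrank_ker ψ
    rw [hrange, finrank_top, Module.finrank_self, Module.finrank_fintype_fun_eq_card] at h1
    have h2 := Submodule.finrank_sup_add_finrank_inf_eq (LinearMap.ker M'.mulVecLin)
      (LinearMap.ker ψ)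
    rw [hsup, hinf, finrank_top, Module.finrank_fintype_fun_eq_card] at h2
    have h3 : Module.finrank (ZMod 2) (LinearMap.ker M'.mulVecLin) =
        Module.finrank (ZMod 2) (LinearMap.ker M.mulVecLin) + 1 := by omega
    rw [h3, Nat.even_add_one, Nat.not_even_iff_odd] at heven2
    exact (ZMod.natCast_eq_one_iff_odd).mpr heven2

end alternating

section system

variable {m r : ℕ}

theorem sy_symm {ℓ : ℕ} (B : ∀ i : Fin r, Fin (i : ℕ) → ZMod ℓ) (i j : Fin r) :
    sy B i j = sy B j i := by
  unfold sy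
  by_cases h1 : (j : ℕ) < i
  · rw [dif_pos h1, dif_neg (by omega), dif_pos h1]
  · by_cases h2 : (i : ℕ) < j
    · rw [dif_neg h1, dif_pos h2, dif_pos h2]
    · rw [dif_neg h1, dif_neg h2, dif_neg h2, dif_neg h1]

theorem sy_self {ℓ : ℕ} (B : ∀ i : Fin r, Fin (i : ℕ) → ZMod ℓ) (i : Fin r) : sy B i i = 0 := by
  unfold sy
  rw [dif_neg (lt_irrefl _), dif_neg (lt_irrefl _)]

/-- the symmetric matrix of the system -/
def SM (x : X 2 m r) : Matrix (Fin r × Fin m) (Fin r × Fin m) (ZMod 2) := fun p q =>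
  if p.1 = q.1 then (if p.2 = q.2 then x.2 p.1 p.2 else ∑ z, sy x.1 p.1 z)
    else (if p.2 = q.2 then 0 else sy x.1 p.1 q.1)

theorem SM_symm (x : X 2 m r) : (SM x)ᵀ = SM x := by
  ext p q
  rw [Matrix.transpose_apply]
  unfold SM
  by_cases h1 : p.1 = q.1
  · rw [if_pos h1.symm, if_pos h1]
    by_cases h2 : p.2 = q.2
    · rw [if_pos h2.symm, if_pos h2, h1, h2]
    · rw [if_neg (fun h => h2 h.symm), if_neg h2, h1]
  · rw [if_neg (fun h => h1 h.symm), if_neg h1]
    by_cases h2 : p.2 = q.2
    · rw [if_pos h2.symm, if_pos h2]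
    · rw [if_neg (fun h => h2 h.symm), if_neg h2, sy_symm]

theorem sum_ne (f : Fin m → ZMod 2) (c : ZMod 2) (b : Fin m) :
    ∑ b', (if b = b' then 0 else c) * f b' = c * (∑ b', f b' + f b) := by
  have h1 : ∑ b', (if b = b' then 0 else c) * f b' =
      ∑ b', (c * f b' + if b = b' then c * f b' else 0) := by
    refine Finset.sum_congr rfl fun b' _ => ?_
    by_cases h : b = b'
    · rw [if_pos h, if_pos h, zero_mul, CharTwo.add_self_eq_zero]
    · rw [if_neg h, if_neg h, add_zero]
  rw [h1, Finset.sum_add_distrib, Finset.sum_ite_eq, if_pos (Finset.mem_univ _), ← Finset.mul_sum]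
  ring

theorem SM_mul (x : X 2 m r) (a : Fin r → V 2 m) (i : Fin r) (b : Fin m) :
    (SM x *ᵥ (fun p : Fin r × Fin m => a p.1 p.2)) (i, b) =
      ∑ y, sy x.1 i y * ((a i b + a y b) + (∑ b', a i b' + ∑ b', a y b')) + a i b * x.2 i b := by
  change ∑ q : Fin r × Fin m, SM x (i, b) q * a q.1 q.2 = _
  rw [Fintype.sum_prod_type]
  have h1 : ∀ y, ∑ b', SM x (i, b) (y, b') * a y b' =
      sy x.1 i y * (∑ b', a y b' + a y b) +
        if i = y then ((∑ z, sy x.1 i z) * (∑ b', a i b' + a i b) + x.2 i b * a i b) else 0 := by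
    intro y
    by_cases hiy : i = y
    · subst hiy
      rw [sy_self, zero_mul, zero_add, if_pos rfl]
      have h2 : ∑ b', SM x (i, b) (i, b') * a i b' =
          ∑ b', ((if b = b' then 0 else ∑ z, sy x.1 i z) * a i b' +
            if b = b' then x.2 i b * a i b' else 0) := by
        refine Finset.sum_congr rfl fun b' _ => ?_
        unfold SM
        rw [if_pos rfl]
        by_cases h : b = b'
        · rw [if_pos h, if_pos h, if_pos h, zero_mul, zero_add]
        · rw [if_neg h, if_neg h, if_neg h, add_zero]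
      rw [h2, Finset.sum_add_distrib, sum_ne, Finset.sum_ite_eq, if_pos (Finset.mem_univ _)]
    · rw [if_neg hiy, add_zero, ← sum_ne]
      refine Finset.sum_congr rfl fun b' _ => ?_
      unfold SM
      rw [if_neg hiy]
  simp only [h1]
  rw [Finset.sum_add_distrib, Finset.sum_ite_eq, if_pos (Finset.mem_univ _), Finset.sum_mul]
  rw [← add_assoc, ← Finset.sum_add_distrib]
  congr 1
  · refine Finset.sum_congr rfl fun y _ => ?_
    ring
  · ring

/-- the left side of the system -/
def Es (x : X 2 m r) (a : Fin r → V 2 m) (i : Fin r) (b : Fin m) : ZMod 2 :=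
  ∑ y, 1 * sy x.1 i y * (a i b - a y b) + ∑ s, a i s * x.2 i s + a i b * x.2 i b

theorem SM_Es (hm : Even m) (x : X 2 m r) (a : Fin r → V 2 m) (i : Fin r) (b : Fin m) :
    (SM x *ᵥ (fun p : Fin r × Fin m => a p.1 p.2)) (i, b) =
      Es x a i b + ∑ b', Es x a i b' := by
  rw [SM_mul]
  have hm0 : (m : ZMod 2) = 0 := (ZMod.natCast_eq_zero_iff_even).mpr hm
  have h1 : ∑ b', Es x a i b' = ∑ y, sy x.1 i y * (∑ b', a i b' + ∑ b', a y b') +
      ∑ s, a i s * x.2 i s := by
    unfold Es
    rw [Finset.sum_add_distrib, Finset.sum_add_distrib, Finset.sum_const, Finset.card_univ,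
      Fintype.card_fin, nsmul_eq_mul, hm0, zero_mul, add_zero, Finset.sum_comm]
    congr 1
    refine Finset.sum_congr rfl fun y _ => ?_
    rw [← Finset.sum_add_distrib, Finset.mul_sum]
    refine Finset.sum_congr rfl fun b' _ => ?_
    rw [one_mul, CharTwo.sub_eq_add]
  rw [h1]
  unfold Es
  have h2 : ∀ P Q R S : ZMod 2, P + S + Q + (R + S) = P + R + Q := by decide
  rw [h2]
  congr 1
  rw [← Finset.sum_add_distrib]
  refine Finset.sum_congr rfl fun y _ => ?_
  rw [one_mul, CharTwo.sub_eq_add]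
  ring

theorem sol_iff (hm : Even m) (x : X 2 m r) (a : Fin r → V 2 m) :
    Sol (fun _ => 1) (sy x.1) x.2 a ↔
      SM x *ᵥ (fun p : Fin r × Fin m => a p.1 p.2) = 0 := by
  have hm0 : (m : ZMod 2) = 0 := (ZMod.natCast_eq_zero_iff_even).mpr hm
  constructor
  · intro h
    have h1 : ∀ i b, Es x a i b = 0 := h
    funext p
    have h2 := SM_Es hm x a p.1 p.2
    simp only [h1, Finset.sum_const_zero, add_zero] at h2
    exact h2
  · intro h
    have h1 : ∀ i b, Es x a i b + ∑ b', Es x a i b' = 0 := by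
      intro i b
      rw [← SM_Es hm, h]
      rfl
    have h2 : ∀ i, ∑ b', Es x a i b' = 0 := by
      intro i
      have h3 : ∑ b, (Es x a i b + ∑ b', Es x a i b') = 0 := by
        apply Finset.sum_eq_zero
        intro b _
        exact h1 i b
      rw [Finset.sum_add_distrib, Finset.sum_const, Finset.card_univ, Fintype.card_fin,
        nsmul_eq_mul, hm0, zero_mul, add_zero] at h3
      exact h3
    intro i b
    have h3 := h1 i b
    rw [h2, add_zero] at h3
    exact h3

end system

theorem par : S_PAR := by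
  classical
  intro m r hm x
  refine ⟨Module.finrank (ZMod 2) (LinearMap.ker (SM x).mulVecLin), ?_, ?_⟩
  · have h1 : nsol x = Nat.card (LinearMap.ker (SM x).mulVecLin) := by
      unfold nsol
      rw [← Nat.card_coe_set_eq]
      refine Nat.card_congr ((Equiv.curry (Fin r) (Fin m) (ZMod 2)).subtypeEquiv ?_).symm
      intro u
      have h2 := sol_iff hm x (Function.curry u)
      have h3 : (fun p : Fin r × Fin m => Function.curry u p.1 p.2) = u := rfl
      rw [h3] at h2
      exact h2.symm
    rw [h1, Module.natCard_eq_pow_finrank (K := ZMod 2), Nat.card_zmod]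
  · have hm0 : (m : ZMod 2) = 0 := (ZMod.natCast_eq_zero_iff_even).mpr hm
    have h1 := parity (SM x) (SM_symm x) (fun _ => 1) (by
      rintro ⟨i, b⟩
      have h2 := SM_mul x (fun _ _ => 1) i b
      refine h2.trans ?_
      have h3 : SM x (i, b) (i, b) = x.2 i b := by
        unfold SM
        rw [if_pos rfl, if_pos rfl]
      rw [h3, one_mul]
      have h4 : ∑ y, sy x.1 i y * (((1 : ZMod 2) + 1) + (∑ _b' : Fin m, (1 : ZMod 2) +
          ∑ _b' : Fin m, (1 : ZMod 2))) = 0 := by
        apply Finset.sum_eq_zero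
        intro y _
        rw [CharTwo.add_self_eq_zero, CharTwo.add_self_eq_zero, add_zero, mul_zero]
      rw [h4, zero_add]) (by
      rw [Fintype.card_prod, Fintype.card_fin, Fintype.card_fin]
      exact hm.mul_left r)
    rw [h1, Fintype.sum_prod_type]
    refine Finset.sum_congr rfl fun i _ => Finset.sum_congr rfl fun b _ => ?_
    unfold SM
    rw [if_pos rfl, if_pos rfl, one_mul]

end Pool.Agent.D0H52.RM
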