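import Pool.Agent.D0H99.RM.Stm2
import Pool.Agent.D0H52.RM.Cl
import Pool.Agent.D0H52.RM.Mo
import Pool.Agent.D0H52.RM.Par

set_option autoImplicit false

/-! Project RM, module MO2: the distribution of the number of the solutions. -/

namespace Pool.Agent.D0H52.RM

open Finset Pool.Agent.D0H99.RM Filter Topology

section

variable {m r : ℕ}

theorem good_card2 (h : S_CL2) (hm : Even m) :
    (Good 2 m r).ncard ≤ 3 * (2 ^ m) ^ r + 2 ^ (2 ^ m * 2 ^ m) * (2 ^ m - 1) ^ r := by
  classical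
  let A1 : Finset (Fin r → V 2 m × V 2 m) :=
    Finset.univ.image (fun u : Fin r → V 2 m => fun x => ((0 : V 2 m), u x))
  let A2 : Finset (Fin r → V 2 m × V 2 m) :=
    Finset.univ.image (fun u : Fin r → V 2 m => fun x => (u x, (0 : V 2 m)))
  let A4 : Finset (Fin r → V 2 m × V 2 m) :=
    Finset.univ.image (fun u : Fin r → V 2 m => fun x =>
      ((fun s => 1 - (u x s + ∑ b, u x b) : V 2 m), u x))
  let A3 : Finset (Fin r → V 2 m × V 2 m) :=
    (Finset.univ.filter (fun I : Finset (V 2 m × V 2 m) => I.card ≤ 2 ^ m - 1)).biUnion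
      (fun I => Fintype.piFinset (fun _ => I))
  have h1 : Good 2 m r ⊆ ((A1 ∪ A2 ∪ A4 ∪ A3 : Finset _) : Set (Fin r → V 2 m × V 2 m)) := by
    intro v hv
    have h2 := h m hm (Finset.univ.image v)
      (by
        intro w hw
        obtain ⟨x, -, rfl⟩ := Finset.mem_image.mp hw
        exact hv.1 x)
      (by
        intro w hw w' hw'
        obtain ⟨x, -, rfl⟩ := Finset.mem_image.mp hw
        obtain ⟨y, -, rfl⟩ := Finset.mem_image.mp hw'
        exact hv.2 x y)
    rw [Finset.mem_coe, Finset.mem_union, Finset.mem_union, Finset.mem_union]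
    rcases h2 with h2 | h2 | h2 | h2
    · right
      refine Finset.mem_biUnion.mpr ⟨Finset.univ.image v, ?_, ?_⟩
      · exact Finset.mem_filter.mpr ⟨Finset.mem_univ _, by omega⟩
      · exact Fintype.mem_piFinset.mpr fun x => Finset.mem_image_of_mem _ (Finset.mem_univ x)
    · left
      left
      left
      refine Finset.mem_image.mpr ⟨fun x => (v x).2, Finset.mem_univ _, ?_⟩
      funext x
      exact Prod.ext (h2 _ (Finset.mem_image_of_mem _ (Finset.mem_univ x))).symm rfl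
    · left
      left
      right
      refine Finset.mem_image.mpr ⟨fun x => (v x).1, Finset.mem_univ _, ?_⟩
      funext x
      exact Prod.ext rfl (h2 _ (Finset.mem_image_of_mem _ (Finset.mem_univ x))).symm
    · left
      right
      refine Finset.mem_image.mpr ⟨fun x => (v x).2, Finset.mem_univ _, ?_⟩
      funext x
      refine Prod.ext ?_ rfl
      funext s
      have h3 := h2 _ (Finset.mem_image_of_mem _ (Finset.mem_univ x)) s
      change 1 - ((v x).2 s + ∑ b, (v x).2 b) = (v x).1 s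
      rw [← h3, add_sub_cancel_right]
  have hA1 : A1.card ≤ (2 ^ m) ^ r := by
    refine Finset.card_image_le.trans ?_
    rw [Finset.card_univ, Fintype.card_fun, card_V, Fintype.card_fin]
  have hA2 : A2.card ≤ (2 ^ m) ^ r := by
    refine Finset.card_image_le.trans ?_
    rw [Finset.card_univ, Fintype.card_fun, card_V, Fintype.card_fin]
  have hA4 : A4.card ≤ (2 ^ m) ^ r := by
    refine Finset.card_image_le.trans ?_
    rw [Finset.card_univ, Fintype.card_fun, card_V, Fintype.card_fin]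
  have hA3 : A3.card ≤ 2 ^ (2 ^ m * 2 ^ m) * (2 ^ m - 1) ^ r := by
    refine (Finset.card_biUnion_le_card_mul _ _ ((2 ^ m - 1) ^ r) ?_).trans ?_
    · intro I hI
      rw [Fintype.card_piFinset_const]
      exact Nat.pow_le_pow_left (Finset.mem_filter.mp hI).2 r
    · refine Nat.mul_le_mul_right _ ?_
      refine (Finset.card_filter_le _ _).trans ?_
      rw [Finset.card_univ, Fintype.card_finset, Fintype.card_prod, card_V]
  have hU : (A1 ∪ A2 ∪ A4 ∪ A3).card ≤ A1.card + A2.card + A4.card + A3.card := by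
    have h2 := Finset.card_union_le (A1 ∪ A2 ∪ A4) A3
    have h3 := Finset.card_union_le (A1 ∪ A2) A4
    have h4 := Finset.card_union_le A1 A2
    omega
  calc (Good 2 m r).ncard
      ≤ ((A1 ∪ A2 ∪ A4 ∪ A3 : Finset _) : Set (Fin r → V 2 m × V 2 m)).ncard :=
        Set.ncard_le_ncard h1 (Finset.finite_toSet _)
    _ = (A1 ∪ A2 ∪ A4 ∪ A3).card := Set.ncard_coe_finset _
    _ ≤ A1.card + A2.card + A4.card + A3.card := hU
    _ ≤ _ := by omega

open Classical in
theorem nsol_eq (x : X 2 m r) :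
    nsol x = ∑ a : Fin r → V 2 m, if Sol (fun _ => 1) (sy x.1) x.2 a then 1 else 0 := by
  unfold nsol
  rw [← Finset.card_filter, ← Set.ncard_coe_finset]
  congr 1
  ext a
  simp

/-- the second moment -/
theorem total (h : S_CL2) (hm : Even m) :
    (∑ x : X 2 m r, nsol x) * (2 ^ m) ^ r ≤
      Nat.card (X 2 m r) * (3 * (2 ^ m) ^ r + 2 ^ (2 ^ m * 2 ^ m) * (2 ^ m - 1) ^ r) := by
  classical
  have h1 : ∑ x : X 2 m r, nsol x =
      ∑ a : Fin r → V 2 m, Nat.card (LinearMap.ker (Lam (fun _ : Fin r => (1 : ZMod 2)) a)) := by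
    simp only [nsol_eq]
    rw [Finset.sum_comm]
    refine Finset.sum_congr rfl fun a _ => ?_
    rw [← Finset.card_filter, Nat.card_eq_fintype_card, Fintype.card_subtype]
    congr 1
    ext x
    rw [Finset.mem_filter, Finset.mem_filter, mem_ker_Lam]
  have h4 : (∑ a : Fin r → V 2 m, Nat.card (LinearMap.ker
      (Lam (fun _ : Fin r => (1 : ZMod 2)) a))) * (2 ^ m) ^ r =
      Nat.card (X 2 m r) * ∑ a : Fin r → V 2 m, Nat.card (Ann (fun _ : Fin r => (1 : ZMod 2)) a) := by
    rw [Finset.sum_mul, Finset.mul_sum]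
    refine Finset.sum_congr rfl fun a _ => ?_
    have h5 := card_ker (Lam (fun _ : Fin r => (1 : ZMod 2)) a)
    have h6 : Nat.card (Fin r × Fin m → ZMod 2) = (2 ^ m) ^ r := by
      rw [Nat.card_eq_fintype_card, Fintype.card_fun, ZMod.card, Fintype.card_prod,
        Fintype.card_fin, Fintype.card_fin, ← pow_mul, mul_comm]
    rw [h6] at h5
    exact h5
  rw [h1, h4]
  exact Nat.mul_le_mul_left _ ((sum_ann _ (fun _ => one_ne_zero)).trans (good_card2 h hm))

/-- the parity -/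
def pr (x : X 2 m r) : ZMod 2 := ∑ i, ∑ s, x.2 i s

open Classical in
/-- change of one coordinate of `p` -/
noncomputable def flip (i : Fin r) (s : Fin m) (x : X 2 m r) : X 2 m r :=
  (x.1, fun j b => x.2 j b + if j = i ∧ b = s then 1 else 0)

theorem flip_flip (i : Fin r) (s : Fin m) (x : X 2 m r) : flip i s (flip i s x) = x := by
  classical
  refine Prod.ext rfl ?_
  funext j b
  change x.2 j b + (if j = i ∧ b = s then 1 else 0) + (if j = i ∧ b = s then 1 else 0) = _
  rw [add_assoc, CharTwo.add_self_eq_zero, add_zero]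

theorem pr_flip (i : Fin r) (s : Fin m) (x : X 2 m r) : pr (flip i s x) = pr x + 1 := by
  classical
  unfold pr
  change ∑ j, ∑ b, (x.2 j b + if j = i ∧ b = s then 1 else 0) = _
  simp only [Finset.sum_add_distrib]
  congr 1
  rw [Finset.sum_eq_single i]
  · rw [Finset.sum_eq_single s]
    · rw [if_pos ⟨rfl, rfl⟩]
    · intro b _ hb
      rw [if_neg (fun h => hb h.2)]
    · intro h
      exact absurd (Finset.mem_univ _) h
  · intro j _ hj
    apply Finset.sum_eq_zero
    intro b _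
    rw [if_neg (fun h => hj h.1)]
  · intro h
    exact absurd (Finset.mem_univ _) h

theorem sol_flip (i : Fin r) (s : Fin m) (x : X 2 m r) (a : Fin r → V 2 m) (ha : a i s = 0) :
    Sol (fun _ => 1) (sy (flip i s x).1) (flip i s x).2 a ↔ Sol (fun _ => 1) (sy x.1) x.2 a := by
  classical
  have h0 : ∀ j b, a j b * (flip i s x).2 j b = a j b * x.2 j b := by
    intro j b
    change a j b * (x.2 j b + if j = i ∧ b = s then 1 else 0) = _
    by_cases h : j = i ∧ b = s
    · rw [h.1, h.2, ha, zero_mul, zero_mul]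
    · rw [if_neg h, add_zero]
  have h1 : ∀ j b, Es (flip i s x) a j b = Es x a j b := by
    intro j b
    unfold Es
    simp only [h0]
    rfl
  constructor
  · intro h j b
    exact (h1 j b).symm.trans (h j b)
  · intro h j b
    exact (h1 j b).trans (h j b)

open Classical in
theorem card_flip (i : Fin r) (s : Fin m) (P : X 2 m r → Prop)
    (hP : ∀ x, P (flip i s x) ↔ P x) :
    (Finset.univ.filter fun x : X 2 m r => P x ∧ pr x = 0).card =
      (Finset.univ.filter fun x : X 2 m r => P x ∧ pr x ≠ 0).card := by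
  have h1 : ∀ c : ZMod 2, c + 1 ≠ 0 ↔ c = 0 := by decide
  have h2 : ∀ c : ZMod 2, c + 1 = 0 ↔ c ≠ 0 := by decide
  refine Finset.card_nbij' (flip i s) (flip i s) ?_ ?_ ?_ ?_
  · intro x hx
    have hx' := (Finset.mem_filter.mp (Finset.mem_coe.mp hx)).2
    refine Finset.mem_coe.mpr (Finset.mem_filter.mpr ⟨Finset.mem_univ _, (hP x).mpr hx'.1, ?_⟩)
    rw [pr_flip]
    exact (h1 _).mpr hx'.2
  · intro x hx
    have hx' := (Finset.mem_filter.mp (Finset.mem_coe.mp hx)).2
    refine Finset.mem_coe.mpr (Finset.mem_filter.mpr ⟨Finset.mem_univ _, (hP x).mpr hx'.1, ?_⟩)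
    rw [pr_flip]
    exact (h2 _).mpr hx'.2
  · intro x _
    exact flip_flip i s x
  · intro x _
    exact flip_flip i s x

theorem sol_one (hm : Even m) (x : X 2 m r) :
    Sol (fun _ => 1) (sy x.1) x.2 (fun _ _ => 1) ↔ x.2 = 0 := by
  have h1 : ∀ i b, (Matrix.mulVec (SM x) (fun _ : Fin r × Fin m => (1 : ZMod 2))) (i, b) =
      x.2 i b := by
    intro i b
    have h2 := SM_mul x (fun _ _ => 1) i b
    refine h2.trans ?_
    rw [one_mul]
    have h4 : ∑ y, sy x.1 i y * (((1 : ZMod 2) + 1) + (∑ _b' : Fin m, (1 : ZMod 2) +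
        ∑ _b' : Fin m, (1 : ZMod 2))) = 0 := by
      apply Finset.sum_eq_zero
      intro y _
      rw [CharTwo.add_self_eq_zero, CharTwo.add_self_eq_zero, add_zero, mul_zero]
    rw [h4, zero_add]
  rw [sol_iff hm]
  constructor
  · intro h
    funext i b
    rw [← h1 i b]
    exact congrFun h (i, b)
  · intro h
    funext p
    refine (h1 p.1 p.2).trans ?_
    rw [h]
    rfl

open Classical in
/-- the signed sum -/
theorem signed (hm : Even m) :
    ∑ x : X 2 m r with pr x = 0, nsol x =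
      ∑ x : X 2 m r with pr x ≠ 0, nsol x +
        Fintype.card (∀ i : Fin r, Fin (i : ℕ) → ZMod 2) := by
  have hsw : ∀ (Q : X 2 m r → Prop) [DecidablePred Q], ∑ x : X 2 m r with Q x, nsol x =
      ∑ a : Fin r → V 2 m, (Finset.univ.filter fun x : X 2 m r =>
        Sol (fun _ => 1) (sy x.1) x.2 a ∧ Q x).card := by
    intro Q _
    simp only [nsol_eq]
    rw [Finset.sum_comm]
    refine Finset.sum_congr rfl fun a _ => ?_
    rw [← Finset.card_filter, Finset.filter_filter]
    congr 1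
    ext x
    simp only [Finset.mem_filter]
    tauto
  rw [hsw, hsw]
  rw [← Finset.add_sum_erase _ _ (Finset.mem_univ (fun _ _ => 1 : Fin r → V 2 m))]
  rw [← Finset.add_sum_erase _ (fun a : Fin r → V 2 m => (Finset.univ.filter
    fun x : X 2 m r => Sol (fun _ => 1) (sy x.1) x.2 a ∧ pr x ≠ 0).card)
    (Finset.mem_univ (fun _ _ => 1 : Fin r → V 2 m))]
  have h1 : ∀ a ∈ (Finset.univ : Finset (Fin r → V 2 m)).erase (fun _ _ => 1),
      (Finset.univ.filter fun x : X 2 m r => Sol (fun _ => 1) (sy x.1) x.2 a ∧ pr x = 0).card =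
      (Finset.univ.filter fun x : X 2 m r => Sol (fun _ => 1) (sy x.1) x.2 a ∧ pr x ≠ 0).card := by
    intro a ha
    have h2 : ∃ i s, a i s = 0 := by
      by_contra hcon
      push Not at hcon
      apply (Finset.mem_erase.mp ha).1
      funext i s
      have h3 : ∀ c : ZMod 2, c ≠ 0 → c = 1 := by decide
      exact h3 _ (hcon i s)
    obtain ⟨i, s, his⟩ := h2
    exact card_flip i s _ (fun x => sol_flip i s x a his)
  rw [Finset.sum_congr rfl h1]
  have h2 : (Finset.univ.filter fun x : X 2 m r =>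
      Sol (fun _ => 1) (sy x.1) x.2 (fun _ _ => 1) ∧ pr x ≠ 0).card = 0 := by
    rw [Finset.card_eq_zero, Finset.filter_eq_empty_iff]
    rintro x - ⟨hx1, hx2⟩
    rw [sol_one hm] at hx1
    apply hx2
    unfold pr
    rw [hx1]
    simp
  have h3 : (Finset.univ.filter fun x : X 2 m r =>
      Sol (fun _ => 1) (sy x.1) x.2 (fun _ _ => 1) ∧ pr x = 0).card =
        Fintype.card (∀ i : Fin r, Fin (i : ℕ) → ZMod 2) := by
    rw [← Finset.card_univ (α := ∀ i : Fin r, Fin (i : ℕ) → ZMod 2)]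
    refine Finset.card_nbij' (fun x => x.1) (fun B => (B, 0)) ?_ ?_ ?_ ?_
    · intro x _
      exact Finset.mem_coe.mpr (Finset.mem_univ _)
    · intro B _
      refine Finset.mem_coe.mpr (Finset.mem_filter.mpr ⟨Finset.mem_univ _, ?_, ?_⟩)
      · exact (sol_one hm (B, 0)).mpr rfl
      · unfold pr
        simp
    · intro x hx
      have hx' := (Finset.mem_filter.mp (Finset.mem_coe.mp hx)).2.1
      rw [sol_one hm] at hx'
      exact Prod.ext rfl hx'.symm
    · intro B _
      rfl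
  rw [h2, h3]
  ring

theorem card_X : Nat.card (X 2 m r) =
    Fintype.card (∀ i : Fin r, Fin (i : ℕ) → ZMod 2) * (2 ^ m) ^ r := by
  rw [Nat.card_eq_fintype_card, Fintype.card_prod, Fintype.card_fun, card_V, Fintype.card_fin]

open Classical in
/-- all inequalities -/
theorem counts (h' : S_PAR) (hm : Even m) (hm2 : 2 ≤ m) (hr : 1 ≤ r) :
    (2 * Nat.card (X 2 m r) ≤ ∑ x : X 2 m r with pr x = 0, nsol x +
      3 * ({x : X 2 m r | nsol x = 1}.ncard)) ∧
    (8 * Nat.card (X 2 m r) ≤ ∑ x : X 2 m r with pr x = 0, nsol x +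
      ∑ x : X 2 m r with pr x = 0, nsol x + ∑ x : X 2 m r with pr x ≠ 0, nsol x +
      6 * ({x : X 2 m r | nsol x ≤ 2}.ncard)) ∧
    (6 * ∑ x : X 2 m r, Nat.log 2 (nsol x) + Nat.card (X 2 m r) ≤
      4 * ∑ x : X 2 m r with pr x = 0, nsol x + 2 * ∑ x : X 2 m r with pr x ≠ 0, nsol x) := by
  have hd : ∀ x : X 2 m r, ∃ d : ℕ, nsol x = 2 ^ d ∧ ((d : ℕ) : ZMod 2) = pr x :=
    fun x => h' m r hm x
  choose d hd1 hd2 using hd
  let Ev : Finset (X 2 m r) := Finset.univ.filter fun x => pr x = 0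
  let Od : Finset (X 2 m r) := Finset.univ.filter fun x => pr x ≠ 0
  have hEO : Ev.card = Od.card := by
    have h1 := card_flip (m := m) (r := r) ⟨0, by omega⟩ ⟨0, by omega⟩ (fun _ => True)
      (fun x => Iff.rfl)
    simp only [true_and] at h1
    exact h1
  have hEO2 : Ev.card + Od.card = Nat.card (X 2 m r) := by
    rw [Nat.card_eq_fintype_card, ← Finset.card_univ]
    exact Finset.card_filter_add_card_filter_not _
  have hevd : ∀ x ∈ Ev, Even (d x) := by
    intro x hx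
    have h1 := (Finset.mem_filter.mp hx).2
    rw [← hd2] at h1
    exact (ZMod.natCast_eq_zero_iff_even).mp h1
  have hodd : ∀ x ∈ Od, Odd (d x) := by
    intro x hx
    have h1 := (Finset.mem_filter.mp hx).2
    rw [← hd2, Ne, ZMod.natCast_eq_zero_iff_even, Nat.not_even_iff_odd] at h1
    exact h1
  have pw1 : ∀ n : ℕ, 3 * (n + 2) + 2 ≤ 2 * 2 ^ (n + 2) := by
    intro n
    induction n with
    | zero => norm_num
    | succ n ih =>
      have h3 : 2 ^ (n + 1 + 2) = 2 * 2 ^ (n + 2) := by ring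
      have h4 : 1 ≤ 2 ^ n := Nat.one_le_pow _ _ (by norm_num)
      have h5 : 2 ^ (n + 2) = 4 * 2 ^ n := by ring
      rw [h3]
      omega
  have pw2 : ∀ n : ℕ, 3 * (n + 3) ≤ 2 ^ (n + 3) + 1 := by
    intro n
    induction n with
    | zero => norm_num
    | succ n ih =>
      have h3 : 2 ^ (n + 1 + 3) = 2 * 2 ^ (n + 3) := by ring
      have h4 : 1 ≤ 2 ^ n := Nat.one_le_pow _ _ (by norm_num)
      have h5 : 2 ^ (n + 3) = 8 * 2 ^ n := by ring
      rw [h3]
      omega
  -- pointwise facts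
  have pe : ∀ x ∈ Ev, 4 ≤ nsol x + 3 * (if nsol x = 1 then 1 else 0) ∧
      3 * d x + 2 ≤ 2 * nsol x := by
    intro x hx
    obtain ⟨k, hk⟩ := hevd x hx
    rw [hd1]
    rcases Nat.eq_zero_or_pos k with h0 | h0
    · have : d x = 0 := by omega
      rw [this]
      norm_num
    · have h3 := pw1 (d x - 2)
      have h4 : d x - 2 + 2 = d x := by omega
      rw [h4] at h3
      have h5 : 2 ^ 2 ≤ 2 ^ d x := Nat.pow_le_pow_right (by norm_num) (by omega)
      constructor
      · omega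
      · exact h3
  have po : ∀ x ∈ Od, 8 ≤ nsol x + 6 * (if nsol x = 2 then 1 else 0) ∧
      3 * d x ≤ nsol x + 1 := by
    intro x hx
    obtain ⟨k, hk⟩ := hodd x hx
    rw [hd1]
    rcases Nat.eq_zero_or_pos k with h0 | h0
    · have : d x = 1 := by omega
      rw [this]
      norm_num
    · have h3 := pw2 (d x - 3)
      have h4 : d x - 3 + 3 = d x := by omega
      rw [h4] at h3
      have h5 : 2 ^ 3 ≤ 2 ^ d x := Nat.pow_le_pow_right (by norm_num) (by omega)
      constructor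
      · omega
      · exact h3
  -- sums
  have hn0 : ∑ x ∈ Ev, (if nsol x = 1 then 1 else 0) ≤ {x : X 2 m r | nsol x = 1}.ncard := by
    rw [← Finset.card_filter]
    rw [← Set.ncard_coe_finset]
    apply Set.ncard_le_ncard _ (Set.toFinite _)
    intro x hx
    exact (Finset.mem_filter.mp (Finset.mem_coe.mp hx)).2
  have hn01 : ∑ x ∈ Ev, (if nsol x = 1 then 1 else 0) + ∑ x ∈ Od, (if nsol x = 2 then 1 else 0) ≤
      {x : X 2 m r | nsol x ≤ 2}.ncard := by
    rw [← Finset.card_filter, ← Finset.card_filter]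
    rw [← Finset.card_union_of_disjoint]
    · rw [← Set.ncard_coe_finset]
      apply Set.ncard_le_ncard _ (Set.toFinite _)
      intro x hx
      rcases Finset.mem_union.mp (Finset.mem_coe.mp hx) with h1 | h1
      · have h2 := (Finset.mem_filter.mp h1).2
        change nsol x ≤ 2
        omega
      · have h2 := (Finset.mem_filter.mp h1).2
        change nsol x ≤ 2
        omega
    · rw [Finset.disjoint_left]
      intro x h1 h2
      have h3 := (Finset.mem_filter.mp (Finset.mem_filter.mp h1).1).2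
      have h4 := (Finset.mem_filter.mp (Finset.mem_filter.mp h2).1).2
      exact h4 h3
  have s1 : 4 * Ev.card ≤ ∑ x ∈ Ev, nsol x + 3 * ∑ x ∈ Ev, (if nsol x = 1 then 1 else 0) := by
    rw [Finset.mul_sum, ← Finset.sum_add_distrib, mul_comm, ← smul_eq_mul, ← Finset.sum_const]
    exact Finset.sum_le_sum fun x hx => (pe x hx).1
  have s2 : 8 * Od.card ≤ ∑ x ∈ Od, nsol x + 6 * ∑ x ∈ Od, (if nsol x = 2 then 1 else 0) := by
    rw [Finset.mul_sum, ← Finset.sum_add_distrib, mul_comm, ← smul_eq_mul, ← Finset.sum_const]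
    exact Finset.sum_le_sum fun x hx => (po x hx).1
  have s3 : 3 * ∑ x ∈ Ev, d x + 2 * Ev.card ≤ 2 * ∑ x ∈ Ev, nsol x := by
    rw [Finset.mul_sum, Finset.mul_sum, mul_comm 2, ← smul_eq_mul (Ev.card), ← Finset.sum_const,
      ← Finset.sum_add_distrib]
    exact Finset.sum_le_sum fun x hx => (pe x hx).2
  have s4 : 3 * ∑ x ∈ Od, d x ≤ ∑ x ∈ Od, nsol x + Od.card := by
    have h1 : ∑ x ∈ Od, nsol x + Od.card = ∑ x ∈ Od, (nsol x + 1) := by
      rw [Finset.sum_add_distrib, Finset.sum_const, smul_eq_mul, mul_one]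
    rw [h1, Finset.mul_sum]
    exact Finset.sum_le_sum fun x hx => (po x hx).2
  have hlog : ∑ x : X 2 m r, Nat.log 2 (nsol x) = ∑ x ∈ Ev, d x + ∑ x ∈ Od, d x := by
    have h1 : ∀ x : X 2 m r, Nat.log 2 (nsol x) = d x := by
      intro x
      rw [hd1, Nat.log_pow (by norm_num)]
    simp only [h1]
    exact (Finset.sum_filter_add_sum_filter_not _ _ _).symm
  rw [hlog]
  refine ⟨?_, ?_, ?_⟩
  · change _ ≤ ∑ x ∈ Ev, nsol x + _
    omega
  · change _ ≤ ∑ x ∈ Ev, nsol x + ∑ x ∈ Ev, nsol x + ∑ x ∈ Od, nsol x + _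
    omega
  · change _ ≤ 4 * ∑ x ∈ Ev, nsol x + 2 * ∑ x ∈ Od, nsol x
    omega

end

theorem mo2 (h : S_CL2) (h' : S_PAR) : S_MO2 := by
  classical
  intro m hm hm2 ε hε
  have hL : (0 : ℝ) < (2 : ℝ) ^ m := pow_pos (by norm_num) m
  have hL1 : (1 : ℝ) < (2 : ℝ) ^ m := one_lt_pow₀ (by norm_num) (by omega)
  let q : ℝ := ((2 : ℝ) ^ m - 1) / (2 : ℝ) ^ m
  have hq0 : 0 ≤ q := div_nonneg (by linarith) hL.le
  have hq1 : q < 1 := by
    rw [div_lt_one hL]
    linarith
  let q' : ℝ := ((2 : ℝ) ^ m)⁻¹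
  have hq0' : 0 ≤ q' := inv_nonneg.mpr hL.le
  have hq1' : q' < 1 := inv_lt_one_of_one_lt₀ hL1
  let C : ℝ := 2 ^ (2 ^ m * 2 ^ m)
  have htend : Tendsto (fun r : ℕ => C * q ^ r + q' ^ r) atTop (𝓝 0) := by
    have h1 := (tendsto_pow_atTop_nhds_zero_of_lt_one hq0 hq1).const_mul C
    have h2 := h1.add (tendsto_pow_atTop_nhds_zero_of_lt_one hq0' hq1')
    rw [mul_zero, add_zero] at h2
    exact h2
  obtain ⟨r0, hr0⟩ := eventually_atTop.mp (htend.eventually (gt_mem_nhds hε))
  refine ⟨r0 + 1, fun r hr => ?_⟩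
  have hsm := hr0 r (by omega)
  obtain ⟨c1, c2, c3⟩ := counts (m := m) (r := r) h' hm hm2 (by omega)
  have htot := total (r := r) h hm
  have hsig := signed (m := m) (r := r) hm
  have hcX := card_X (m := m) (r := r)
  set E := ∑ x : X 2 m r with pr x = 0, nsol x with hE
  set O := ∑ x : X 2 m r with pr x ≠ 0, nsol x with hO
  have hEO : ∑ x : X 2 m r, nsol x = E + O :=
    (Finset.sum_filter_add_sum_filter_not _ _ _).symm
  rw [hEO] at htot
  set N := Nat.card (X 2 m r) with hN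
  set β := Fintype.card (∀ i : Fin r, Fin (i : ℕ) → ZMod 2) with hβ
  have h2m : 1 ≤ 2 ^ m := Nat.one_le_pow _ _ (by norm_num)
  have hLr : (0 : ℝ) < ((2 : ℝ) ^ m) ^ r := pow_pos hL r
  have e1 : ((E : ℝ) + O) * ((2 : ℝ) ^ m) ^ r ≤
      N * (3 * ((2 : ℝ) ^ m) ^ r + C * ((2 : ℝ) ^ m - 1) ^ r) := by
    have h3 : (((E + O) * (2 ^ m) ^ r : ℕ) : ℝ) ≤
        ((N * (3 * (2 ^ m) ^ r + 2 ^ (2 ^ m * 2 ^ m) * (2 ^ m - 1) ^ r) : ℕ) : ℝ) := by
      exact_mod_cast htot
    push_cast [Nat.cast_sub h2m] at h3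
    exact h3
  have e2 : ((2 : ℝ) ^ m - 1) ^ r = q ^ r * ((2 : ℝ) ^ m) ^ r := by
    rw [← mul_pow]
    congr 1
    change _ = ((2 : ℝ) ^ m - 1) / (2 : ℝ) ^ m * (2 : ℝ) ^ m
    rw [div_mul_cancel₀ _ hL.ne']
  have e3 : (E : ℝ) + O ≤ N * (3 + C * q ^ r) := by
    refine le_of_mul_le_mul_right ?_ hLr
    rw [e2] at e1
    calc _ ≤ _ := e1
      _ = _ := by ring
  have e4 : (E : ℝ) = O + β := by exact_mod_cast hsig
  have e5 : (β : ℝ) = N * q' ^ r := by
    have h3 : (N : ℝ) = β * ((2 : ℝ) ^ m) ^ r := by exact_mod_cast hcX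
    rw [h3]
    change (β : ℝ) = β * ((2 : ℝ) ^ m) ^ r * (((2 : ℝ) ^ m)⁻¹) ^ r
    rw [inv_pow, mul_assoc, mul_inv_cancel₀ hLr.ne', mul_one]
  have hN0 : (0 : ℝ) ≤ N := Nat.cast_nonneg _
  have hβ0 : (0 : ℝ) ≤ β := Nat.cast_nonneg _
  have hO0 : (0 : ℝ) ≤ O := Nat.cast_nonneg _
  have e6 : (E : ℝ) ≤ N * (3 / 2 + ε / 2) := by
    have h3 : N * (C * q ^ r + q' ^ r) ≤ N * ε := mul_le_mul_of_nonneg_left hsm.le hN0
    nlinarith
  have e7 : (O : ℝ) ≤ N * (3 / 2 + ε / 2) := by linarith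
  have f1 : (2 : ℝ) * N ≤ E + 3 * ({x : X 2 m r | nsol x = 1}.ncard : ℝ) := by exact_mod_cast c1
  have f2 : (8 : ℝ) * N ≤ E + E + O + 6 * ({x : X 2 m r | nsol x ≤ 2}.ncard : ℝ) := by
    exact_mod_cast c2
  have f3 : (6 : ℝ) * (∑ x : X 2 m r, Nat.log 2 (nsol x) : ℕ) + N ≤ 4 * E + 2 * O := by
    exact_mod_cast c3
  have hNε : 0 ≤ N * ε := mul_nonneg hN0 hε.le
  refine ⟨?_, ?_, ?_⟩
  · nlinarith
  · nlinarith
  · nlinarith

end Pool.Agent.D0H52.RM
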